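import Pool.Agent.H81.AB.Pai

/-!
# Part BIG: noncyclic abelian 2-groups of exponent at least 16
-/

set_option autoImplicit false

namespace H81.AB

open Pool.Agent.Y382.PAR Pool.Agent.Y410.PAR

universe u

section

variable {G : Type u} [CommGroup G]

theorem sup_mem {w s : G} (hs : s ^ 2 = 1) {b : G}
    (hb : b ∈ Subgroup.zpowers w ⊔ Subgroup.zpowers s) :
    b ∈ Subgroup.zpowers w ∨ b * s ∈ Subgroup.zpowers w := by
  have hss : s * s = 1 := by rw [← sq]; exact hs
  obtain ⟨y, hy, v, hv, rfl⟩ := Subgroup.mem_sup.1 hb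
  obtain ⟨k, rfl⟩ := Subgroup.mem_zpowers_iff.1 hv
  have hs2 : s ^ (2 : ℤ) = 1 := by exact_mod_cast hs
  rcases Int.even_or_odd k with he | ho
  · left
    obtain ⟨l, rfl⟩ := he.two_dvd
    rw [zpow_mul, hs2, one_zpow, mul_one]
    exact hy
  · right
    obtain ⟨l, rfl⟩ := ho
    rw [zpow_add, zpow_mul, hs2, one_zpow, one_mul, zpow_one, mul_assoc, hss, mul_one]
    exact hy

theorem card_sup [Finite G] {w s : G} (hs : s ^ 2 = 1) (hsw : s ∉ Subgroup.zpowers w) :
    Nat.card (Subgroup.zpowers w ⊔ Subgroup.zpowers s : Subgroup G) = orderOf w * 2 := by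
  set N : Subgroup G := Subgroup.zpowers w ⊔ Subgroup.zpowers s with hN
  have hle : Subgroup.zpowers w ≤ N := le_sup_left
  have hsN : s ∈ N := (le_sup_right : Subgroup.zpowers s ≤ N) (Subgroup.mem_zpowers s)
  have h1 : Nat.card ((Subgroup.zpowers w).subgroupOf N) = orderOf w := by
    rw [Nat.card_congr (Subgroup.subgroupOfEquivOfLe hle).toEquiv, Nat.card_zpowers]
  have h2 : ((Subgroup.zpowers w).subgroupOf N).index = 2 := by
    rw [Subgroup.index_eq_two_iff]
    refine ⟨⟨s, hsN⟩, fun b => ?_⟩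
    rw [Subgroup.mem_subgroupOf, Subgroup.mem_subgroupOf]
    change Xor ((b : G) * s ∈ Subgroup.zpowers w) ((b : G) ∈ Subgroup.zpowers w)
    rcases sup_mem hs b.2 with hb | hb
    · right
      refine ⟨hb, fun h => hsw ?_⟩
      have := Subgroup.mul_mem _ (Subgroup.inv_mem _ hb) h
      rwa [inv_mul_cancel_left] at this
    · left
      refine ⟨hb, fun h => hsw ?_⟩
      have := Subgroup.mul_mem _ (Subgroup.inv_mem _ h) hb
      rwa [inv_mul_cancel_left] at this
  have h3 := ((Subgroup.zpowers w).subgroupOf N).card_mul_index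
  rw [h1, h2] at h3
  exact h3.symm

theorem zz_of [Finite G] {w s : G} (hs : s ^ 2 = 1) (hsw : s ∉ Subgroup.zpowers w) {h : ℕ}
    (hh : 1 ≤ h) (ho : orderOf w = 2 * h) :
    Nonempty (ZZ h ≃* (Subgroup.zpowers w ⊔ Subgroup.zpowers s : Subgroup G)) := by
  set N : Subgroup G := Subgroup.zpowers w ⊔ Subgroup.zpowers s with hN
  have hwN : w ∈ N := (le_sup_left : Subgroup.zpowers w ≤ N) (Subgroup.mem_zpowers w)
  have hsN : s ∈ N := (le_sup_right : Subgroup.zpowers s ≤ N) (Subgroup.mem_zpowers s)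
  refine t_DEC N ⟨s, hsN⟩ ⟨w, hwN⟩ h hh ?_ ?_ ?_ ?_
  · exact Subtype.ext hs
  · rw [← ho]
    exact Subgroup.orderOf_mk w hwN
  · intro hmem
    obtain ⟨k, hk⟩ := Subgroup.mem_zpowers_iff.1 hmem
    apply hsw
    have := congrArg Subtype.val hk
    rw [Subgroup.coe_zpow] at this
    exact Subgroup.mem_zpowers_iff.2 ⟨k, this⟩
  · rw [card_sup hs hsw, ho]; ring

end

theorem t_BIG (hPAI : S_PAI.{u}) : S_BIG.{u} := by
  intro G _ _ hG hnc ⟨a0, ha0⟩
  obtain ⟨a, ha⟩ := exists_max (G := G)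
  obtain ⟨s, hs, hsa⟩ := exists_inv_notMem hG hnc ha
  obtain ⟨c, hc⟩ := orderOf_pow_two hG a
  have hc4 : 4 ≤ c := by
    have h1 : orderOf a0 ∣ orderOf a := orderOf_dvd_of_pow_eq_one (ha a0)
    have h2 : orderOf a0 ≤ orderOf a := Nat.le_of_dvd (orderOf_pos a) h1
    by_contra hcon
    have h3 : (2 : ℕ) ^ c ≤ 2 ^ 3 := Nat.pow_le_pow_right (by norm_num) (by omega)
    rw [hc] at h2
    norm_num at h3
    omega
  obtain ⟨d, rfl⟩ := Nat.exists_eq_add_of_le' hc4
  have hss : s * s = 1 := by rw [← sq]; exact hs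
  set K : Subgroup G := Subgroup.zpowers a ⊔ Subgroup.zpowers s with hK
  have haK : Subgroup.zpowers a ≤ K := le_sup_left
  have hsK : s ∈ K := (le_sup_right : Subgroup.zpowers s ≤ K) (Subgroup.mem_zpowers s)
  by_cases htop : K = ⊤
  · have ho : orderOf a = 2 * 2 ^ (d + 3) := by rw [hc, ← pow_succ']
    obtain ⟨e⟩ := zz_of hs hsa (Nat.one_le_two_pow) ho
    have h4 : 4 ≤ 2 ^ (d + 3) := by
      have : (2 : ℕ) ^ 3 ≤ 2 ^ (d + 3) := Nat.pow_le_pow_right (by norm_num) (by omega)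
      norm_num at this
      omega
    have : NeZero (2 ^ (d + 3)) := ⟨by positivity⟩
    have h5 := iso_AllPar e (t_FAM (2 ^ (d + 3)) h4)
    rw [← hK, htop] at h5
    exact iso_AllPar Subgroup.topEquiv h5
  · obtain ⟨b, hb, hb2⟩ := exists_sq_mem hG _ htop
    set w : G := a ^ (2 ^ (d + 1)) with hw
    have hwa : w ∈ Subgroup.zpowers a := Subgroup.pow_mem _ (Subgroup.mem_zpowers a) _
    have how : orderOf w = 2 * 4 := by
      rw [hw, orderOf_pow' a (by positivity), hc]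
      have : Nat.gcd (2 ^ (d + 4)) (2 ^ (d + 1)) = 2 ^ (d + 1) :=
        Nat.gcd_eq_right (pow_dvd_pow 2 (by omega))
      rw [this, Nat.pow_div (by omega) (by norm_num)]
      have h5 : d + 4 - (d + 1) = 3 := by omega
      rw [h5]
    have hwle : Subgroup.zpowers w ≤ Subgroup.zpowers a := by
      rw [Subgroup.zpowers_le]; exact hwa
    have hsw : s ∉ Subgroup.zpowers w := fun h => hsa (hwle h)
    obtain ⟨e⟩ := zz_of hs hsw (by norm_num) how
    set N : Subgroup G := Subgroup.zpowers w ⊔ Subgroup.zpowers s with hN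
    have hAN : AllPar N := iso_AllPar e (t_FAM 4 le_rfl)
    have hNK : N ≤ K := sup_le_sup_right hwle _
    have hwN : w ∈ N := (le_sup_left : Subgroup.zpowers w ≤ N) (Subgroup.mem_zpowers w)
    have hsN : s ∈ N := (le_sup_right : Subgroup.zpowers s ≤ N) (Subgroup.mem_zpowers s)
    obtain ⟨t, ht, ht2, j, hj⟩ : ∃ t ∈ N, t ^ 2 = 1 ∧ ∃ j : ℤ, b ^ 2 = t * a ^ j := by
      rcases sup_mem hs hb2 with h | h
      · obtain ⟨j, hj⟩ := Subgroup.mem_zpowers_iff.1 h
        exact ⟨1, N.one_mem, one_pow 2, j, by rw [one_mul, hj]⟩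
      · obtain ⟨j, hj⟩ := Subgroup.mem_zpowers_iff.1 h
        refine ⟨s, hsN, hs, j, ?_⟩
        rw [hj, mul_comm s, mul_assoc, hss, mul_one]
    have h1 : a ^ (j * (2 ^ (d + 3) : ℕ)) = 1 := by
      have h2 := ha b
      rw [hc, pow_succ' 2 (d + 3), pow_mul, hj, mul_pow] at h2
      have h3 : t ^ 2 ^ (d + 3) = 1 := by
        rw [pow_succ' 2 (d + 2), pow_mul, ht2, one_pow]
      rw [h3, one_mul, ← zpow_natCast, ← zpow_mul] at h2
      exact h2
    have h2 : ((2 ^ (d + 4) : ℕ) : ℤ) ∣ j * (2 ^ (d + 3) : ℕ) := by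
      rw [← hc]; exact orderOf_dvd_iff_zpow_eq_one.2 h1
    have h3 : (2 : ℤ) ∣ j := by
      rw [pow_succ' 2 (d + 3)] at h2
      push_cast at h2
      have h0 : (2 ^ (d + 3) : ℤ) ≠ 0 := by positivity
      exact Int.dvd_of_mul_dvd_mul_right h0 h2
    obtain ⟨i, hi⟩ := h3
    have hp2 : (b * a ^ (-i)) ^ 2 = t := by
      rw [mul_pow, hj, hi, ← zpow_natCast (a ^ (-i)), ← zpow_mul, mul_assoc, ← zpow_add]
      have : 2 * i + -i * ((2 : ℕ) : ℤ) = 0 := by push_cast; ring
      rw [this, zpow_zero, mul_one]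
    have hpK : b * a ^ (-i) ∉ K := by
      intro h
      apply hb
      have : b = b * a ^ (-i) * a ^ i := by rw [mul_assoc, ← zpow_add]; simp
      rw [this]
      exact Subgroup.mul_mem _ h (haK (Subgroup.zpow_mem_zpowers a i))
    have hqa : a ^ (2 ^ d) ∈ Subgroup.zpowers a := Subgroup.pow_mem _ (Subgroup.mem_zpowers a) _
    have hq2 : (a ^ (2 ^ d)) ^ 2 = w := by
      rw [hw, ← pow_mul, ← pow_succ]
    have hqN : a ^ (2 ^ d) ∉ N := by
      intro h
      rcases sup_mem hs h with h | h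
      · have h5 : orderOf (a ^ (2 ^ d)) ∣ orderOf w := orderOf_dvd_of_mem_zpowers h
        rw [how, orderOf_pow' a (by positivity), hc] at h5
        have : Nat.gcd (2 ^ (d + 4)) (2 ^ d) = 2 ^ d :=
          Nat.gcd_eq_right (pow_dvd_pow 2 (by omega))
        rw [this, Nat.pow_div (by omega) (by norm_num)] at h5
        have h6 : d + 4 - d = 4 := by omega
        rw [h6] at h5
        exact absurd (Nat.le_of_dvd (by norm_num) h5) (by norm_num)
      · apply hsa
        have := Subgroup.mul_mem _ (Subgroup.inv_mem _ hqa) (hwle h)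
        rwa [inv_mul_cancel_left] at this
    have hcyc : ¬ IsCyclic (G ⧸ N) := by
      refine not_cyclic_of_two (x := ((b * a ^ (-i) : G) : G ⧸ N))
        (y := ((a ^ (2 ^ d) : G) : G ⧸ N)) ?_ ?_ ?_ ?_ ?_
      · rw [← QuotientGroup.mk_pow, hp2]; exact (QuotientGroup.eq_one_iff _).2 ht
      · rw [← QuotientGroup.mk_pow, hq2]; exact (QuotientGroup.eq_one_iff _).2 hwN
      · exact fun h => hpK (hNK ((QuotientGroup.eq_one_iff _).1 h))
      · exact fun h => hqN ((QuotientGroup.eq_one_iff _).1 h)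
      · intro h
        apply hpK
        have h4 : (b * a ^ (-i) * (a ^ (2 ^ d))⁻¹) ∈ N := by
          rw [← QuotientGroup.eq_one_iff, QuotientGroup.mk_mul, QuotientGroup.mk_inv, h,
            mul_inv_cancel]
        have h5 : b * a ^ (-i) = (b * a ^ (-i) * (a ^ (2 ^ d))⁻¹) * a ^ (2 ^ d) := by
          rw [inv_mul_cancel_right]
        rw [h5]
        exact Subgroup.mul_mem _ (hNK h4) (haK hqa)
    exact t_EXT G N (hPAI (G ⧸ N) (hG.to_quotient N) hcyc) hAN

end H81.AB
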