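import Pool.Agent.H81.AB.Stm
import Pool.Graph.R_seed8.Y410.PAR.EXT

/-!
# Parts ISO0 and EXTC
-/

set_option autoImplicit false

namespace H81.AB

open Pool.Agent.Y382.PAR Pool.Agent.Y410.PAR

universe u v

theorem sgn_permCongr' {X : Type u} {Y : Type v} [Finite X] [Finite Y] (e : X ≃ Y)
    (f : Equiv.Perm X) : sgn (e.permCongr f) = sgn f := by
  classical
  have := Fintype.ofFinite X
  have := Fintype.ofFinite Y
  rw [sgn_eq, sgn_eq, Equiv.Perm.sign_permCongr]

theorem iso_AllPar {G : Type u} {H : Type v} [Group G] [Group H] [Finite G] [Finite H]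
    (e : G ≃* H) (h : AllPar G) : AllPar H := by
  intro ε δ
  obtain ⟨f, F, hF, h1, h2⟩ := h ε δ
  refine ⟨e.toEquiv.permCongr f, e.toEquiv.permCongr F, ?_, ?_, ?_⟩
  · intro x
    simp only [Equiv.permCongr_apply]
    rw [hF]
    simp
  · rw [sgn_permCongr', h1]
  · rw [sgn_permCongr', h2]

theorem iso_CM {G : Type u} {H : Type v} [Group G] [Group H]
    (e : G ≃* H) (h : CM G) : CM H := by
  obtain ⟨f, F, hF⟩ := h
  refine ⟨e.toEquiv.permCongr f, e.toEquiv.permCongr F, ?_⟩
  intro x
  simp only [Equiv.permCongr_apply]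
  rw [hF]
  simp

theorem t_ISO0 : S_ISO0.{u} := fun _ _ _ _ _ _ e => ⟨iso_AllPar e, iso_CM e⟩

theorem t_EXTC : S_EXTC.{u} := by
  classical
  intro G _ _ N _ hQ hN
  obtain ⟨η, H, hH⟩ := hQ
  obtain ⟨φ, Φ, hφ⟩ := hN
  set x : G ⧸ N → G := Quotient.out with hxdef
  have hx : ∀ i, ((x i : G) : G ⧸ N) = i := fun i => QuotientGroup.out_eq' i
  set y : G ⧸ N → G := fun i => x (η i) with hydef
  have hy : ∀ i, ((y i : G) : G ⧸ N) = η i := fun i => hx _
  have h1 : Function.Injective (ff hx y (fun _ n => φ n)) := by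
    refine ff_inj hx ?_ fun _ => φ.injective
    intro i j hij
    simp only [hy] at hij
    exact η.injective hij
  have h2 : Function.Injective (fun g => g * ff hx y (fun _ n => φ n) g) := by
    refine mul_ff_inj hx ?_ fun _ => ?_
    · intro i j hij
      simp only [hy] at hij
      rw [← hH, ← hH] at hij
      exact H.injective hij
    · intro n n' hn
      simp only at hn
      rw [← hφ, ← hφ] at hn
      exact Φ.injective hn
  exact ⟨Equiv.ofBijective _ (Finite.injective_iff_bijective.1 h1),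
    Equiv.ofBijective _ (Finite.injective_iff_bijective.1 h2), fun g => rfl⟩

/-- Recognition of `Z/2 × Z/2h`. -/
theorem t_DEC : S_DEC.{u} := by
  intro G _ _ s a h hh hs ha hsa hcard
  have hn : NeZero (2 * h) := ⟨by omega⟩
  let φ1 : ZMod 2 →+ Additive G := ZMod.lift 2 ⟨zmultiplesHom (Additive G) (Additive.ofMul s), by
    simp only [zmultiplesHom_apply]
    have : (Additive.ofMul (s ^ 2)) = 0 := by rw [hs]; rfl
    rw [ofMul_pow] at this
    exact_mod_cast this⟩
  let φ2 : ZMod (2 * h) →+ Additive G :=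
    ZMod.lift (2 * h) ⟨zmultiplesHom (Additive G) (Additive.ofMul a), by
      simp only [zmultiplesHom_apply]
      have h1 : a ^ (2 * h) = 1 := by rw [← ha]; exact pow_orderOf_eq_one a
      have : (Additive.ofMul (a ^ (2 * h))) = 0 := by rw [h1]; rfl
      rw [ofMul_pow] at this
      exact_mod_cast this⟩
  have e1 : ∀ i : ℤ, φ1 (i : ZMod 2) = Additive.ofMul (s ^ i) := by
    intro i
    simp only [φ1, ZMod.lift_coe, zmultiplesHom_apply]
    rfl
  have e2 : ∀ i : ℤ, φ2 (i : ZMod (2 * h)) = Additive.ofMul (a ^ i) := by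
    intro i
    simp only [φ2, ZMod.lift_coe, zmultiplesHom_apply]
    rfl
  let φ : ZMod 2 × ZMod (2 * h) →+ Additive G := AddMonoidHom.coprod φ1 φ2
  have hinj : Function.Injective φ := by
    rw [injective_iff_map_eq_zero]
    rintro ⟨u, v⟩ huv
    obtain ⟨i, rfl⟩ := ZMod.intCast_surjective u
    obtain ⟨j, rfl⟩ := ZMod.intCast_surjective v
    have h1 : φ1 (i : ZMod 2) + φ2 (j : ZMod (2 * h)) = 0 := huv
    rw [e1, e2, ← ofMul_mul] at h1
    have h2 : s ^ i * a ^ j = 1 := h1
    have hi : ((i : ℤ) : ZMod 2) = 0 := by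
      rcases Int.even_or_odd i with he | ho
      · rw [ZMod.intCast_zmod_eq_zero_iff_dvd]
        exact_mod_cast he.two_dvd
      · exfalso
        apply hsa
        obtain ⟨k, hk⟩ := ho
        have h3 : s ^ i = s := by
          rw [hk, zpow_add, zpow_mul, zpow_one]
          have : s ^ (2 : ℤ) = 1 := by exact_mod_cast hs
          rw [this, one_zpow, one_mul]
        rw [h3] at h2
        rw [eq_inv_of_mul_eq_one_left h2, ← zpow_neg]
        exact Subgroup.zpow_mem_zpowers a _
    have hi2 : s ^ i = 1 := by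
      rw [ZMod.intCast_zmod_eq_zero_iff_dvd] at hi
      obtain ⟨k, hk⟩ := hi
      rw [hk, zpow_mul]
      have : s ^ ((2 : ℕ) : ℤ) = 1 := by rw [zpow_natCast]; exact hs
      rw [this, one_zpow]
    rw [hi2, one_mul] at h2
    have hj : ((j : ℤ) : ZMod (2 * h)) = 0 := by
      rw [ZMod.intCast_zmod_eq_zero_iff_dvd, ← ha]
      exact orderOf_dvd_iff_zpow_eq_one.2 h2
    rw [hi, hj]
    rfl
  have hbij : Function.Bijective φ := by
    have : Fintype G := Fintype.ofFinite G
    have : Fintype (Additive G) := Fintype.ofFinite _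
    rw [Fintype.bijective_iff_injective_and_card]
    refine ⟨hinj, ?_⟩
    rw [← Nat.card_eq_fintype_card, ← Nat.card_eq_fintype_card, Nat.card_prod, Nat.card_zmod,
      Nat.card_zmod]
    have : Nat.card (Additive G) = Nat.card G := rfl
    rw [this, hcard]; ring
  have e : (ZMod 2 × ZMod (2 * h)) ≃+ Additive G := AddEquiv.ofBijective φ hbij
  exact ⟨AddEquiv.toMultiplicativeLeft e⟩

end H81.AB
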