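import Pool.Agent.H81.AB.Fam
import Pool.Agent.H81.AB.Iso

/-!
# Parts E8 and E16: elementary abelian groups of order 8 and 16
-/

set_option autoImplicit false

namespace H81.AB

open Pool.Agent.Y382.PAR

universe u

/-- elementary abelian 2-groups are `(Z/2)^n` -/
theorem elem_iso {G : Type u} [CommGroup G] [Finite G] {n : ℕ} (hcard : Nat.card G = 2 ^ n)
    (hexp : ∀ x : G, x ^ 2 = 1) : Nonempty (Multiplicative (Fin n → ZMod 2) ≃* G) := by
  have hexp' : ∀ x : Additive G, 2 • x = 0 := fun x => hexp x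
  let _ : Module (ZMod 2) (Additive G) := AddCommGroup.zmodModule hexp'
  have hfin : Module.Finite (ZMod 2) (Additive G) := Module.Finite.of_finite
  have h1 : Nat.card (Additive G) = Nat.card (ZMod 2) ^ Module.finrank (ZMod 2) (Additive G) :=
    Module.natCard_eq_pow_finrank
  have h2 : Nat.card (Additive G) = 2 ^ n := hcard
  rw [h2, Nat.card_zmod] at h1
  have h3 : Module.finrank (ZMod 2) (Additive G) = n :=
    (Nat.pow_right_injective (le_refl 2) h1).symm
  have e : Additive G ≃ₗ[ZMod 2] (Fin n → ZMod 2) :=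
    LinearEquiv.ofFinrankEq _ _ (by rw [h3]; simp)
  exact ⟨AddEquiv.toMultiplicativeLeft e.symm.toAddEquiv⟩

theorem t_E8 : S_E8.{u} := by
  intro G _ _ hcard hexp
  obtain ⟨e⟩ := elem_iso (n := 3) (by rw [hcard]; norm_num) hexp
  refine iso_CM e ?_
  let f0 : (Fin 3 → ZMod 2) → (Fin 3 → ZMod 2) := fun v => ![v 2, v 0 + v 2, v 1]
  have h1 : Function.Injective f0 := by decide +kernel
  have h2 : Function.Injective (fun v => v + f0 v) := by decide +kernel
  exact ⟨(Equiv.ofBijective _ (Finite.injective_iff_bijective.1 h1) :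
      Equiv.Perm (Fin 3 → ZMod 2)),
    (Equiv.ofBijective _ (Finite.injective_iff_bijective.1 h2) :
      Equiv.Perm (Fin 3 → ZMod 2)), fun x => rfl⟩

/-- number of a vector -/
def enc (v : Fin 4 → ZMod 2) : ℕ := (v 0).val + 2 * (v 1).val + 4 * (v 2).val + 8 * (v 3).val

/-- vector of a number -/
def dec (n : ℕ) : Fin 4 → ZMod 2 :=
  ![if n % 2 = 1 then 1 else 0, if n / 2 % 2 = 1 then 1 else 0, if n / 4 % 2 = 1 then 1 else 0,
    if n / 8 % 2 = 1 then 1 else 0]

/-- the complete mapping of `(Z/2)^4` -/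
def f16 (v : Fin 4 → ZMod 2) : Fin 4 → ZMod 2 :=
  dec ([8, 5, 3, 14, 15, 2, 4, 13, 6, 0, 10, 7, 9, 11, 1, 12].getD (enc v) 0)

theorem f16_inj : Function.Injective f16 := by decide +kernel

theorem F16_inj : Function.Injective (fun v => v + f16 v) := by decide +kernel

theorem t_E16 : S_E16.{u} := by
  intro G _ _ hcard hexp
  obtain ⟨e⟩ := elem_iso (n := 4) (by rw [hcard]; norm_num) hexp
  refine iso_AllPar e ?_
  refine AllPar_of_trades (Multiplicative (Fin 4 → ZMod 2))
    (Equiv.ofBijective _ (Finite.injective_iff_bijective.1 f16_inj) :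
      Equiv.Perm (Fin 4 → ZMod 2))
    (Equiv.ofBijective _ (Finite.injective_iff_bijective.1 F16_inj) :
      Equiv.Perm (Fin 4 → ZMod 2))
    (c4 (dec 1) (dec 15) (dec 13) (dec 3) : Equiv.Perm (Fin 4 → ZMod 2))
    (c4 (dec 1) (dec 3) (dec 13) (dec 15) : Equiv.Perm (Fin 4 → ZMod 2))
    (c22 (dec 0) (dec 9) (dec 2) (dec 10) : Equiv.Perm (Fin 4 → ZMod 2))
    (c4 (dec 0) (dec 10) (dec 9) (dec 2) : Equiv.Perm (Fin 4 → ZMod 2))
    (fun x => rfl) ?_ ?_ ?_ ?_ ?_ ?_ ?_
  · have h : ∀ x : Fin 4 → ZMod 2, (fun v => v + f16 v) (c4 (dec 1) (dec 3) (dec 13) (dec 15) x) =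
        x + f16 (c4 (dec 1) (dec 15) (dec 13) (dec 3) x) := by decide +kernel
    exact h
  · have h : ∀ x : Fin 4 → ZMod 2, (fun v => v + f16 v) (c4 (dec 0) (dec 10) (dec 9) (dec 2) x) =
        x + f16 (c22 (dec 0) (dec 9) (dec 2) (dec 10) x) := by decide +kernel
    exact h
  · have h : ∀ x : Fin 4 → ZMod 2, (fun v => v + f16 v) (c4 (dec 1) (dec 3) (dec 13) (dec 15)
        (c4 (dec 0) (dec 10) (dec 9) (dec 2) x)) =
        x + f16 (c4 (dec 1) (dec 15) (dec 13) (dec 3)
          (c22 (dec 0) (dec 9) (dec 2) (dec 10) x)) := by decide +kernel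
    exact h
  · exact sgn_c4 (X := Fin 4 → ZMod 2) (by decide +kernel) (by decide +kernel) (by decide +kernel)
  · exact sgn_c4 (X := Fin 4 → ZMod 2) (by decide +kernel) (by decide +kernel) (by decide +kernel)
  · exact sgn_c22 (X := Fin 4 → ZMod 2) (by decide +kernel) (by decide +kernel)
  · exact sgn_c4 (X := Fin 4 → ZMod 2) (by decide +kernel) (by decide +kernel) (by decide +kernel)

end H81.AB
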