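import Pool.Agent.H81.AB.Trd

/-!
# Part FAM: the groups `Z/2 × Z/2h`
-/

set_option autoImplicit false

namespace H81.AB

open Pool.Agent.Y382.PAR

section cyc

variable {X : Type} [DecidableEq X]

/-- the 4-cycle `a → b → c → d → a` -/
def c4 (a b c d : X) : Equiv.Perm X := Equiv.swap a b * (Equiv.swap b c * Equiv.swap c d)

/-- the double transposition `a ↔ b`, `c ↔ d` -/
def c22 (a b c d : X) : Equiv.Perm X := Equiv.swap a b * Equiv.swap c d

theorem sgn_swap' [Finite X] {a b : X} (h : a ≠ b) : sgn (Equiv.swap a b) = -1 := by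
  have := Fintype.ofFinite X
  rw [sgn_eq, Equiv.Perm.sign_swap h]

theorem sgn_c4 [Finite X] {a b c d : X} (h1 : a ≠ b) (h2 : b ≠ c) (h3 : c ≠ d) :
    sgn (c4 a b c d) = -1 := by
  unfold c4
  rw [sgn_mul, sgn_mul, sgn_swap' h1, sgn_swap' h2, sgn_swap' h3]
  simp

theorem sgn_c22 [Finite X] {a b c d : X} (h1 : a ≠ b) (h3 : c ≠ d) :
    sgn (c22 a b c d) = 1 := by
  unfold c22
  rw [sgn_mul, sgn_swap' h1, sgn_swap' h3]
  simp

variable {a b c d : X} (hab : a ≠ b) (hac : a ≠ c) (had : a ≠ d) (hbc : b ≠ c) (hbd : b ≠ d)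
  (hcd : c ≠ d)

set_option linter.unusedSectionVars false

include hab hac had hbc hbd hcd

theorem c4_a : c4 a b c d a = b := by
  unfold c4
  rw [Equiv.Perm.mul_apply, Equiv.Perm.mul_apply, Equiv.swap_apply_of_ne_of_ne hac had,
    Equiv.swap_apply_of_ne_of_ne hab hac, Equiv.swap_apply_left]

theorem c4_b : c4 a b c d b = c := by
  unfold c4
  rw [Equiv.Perm.mul_apply, Equiv.Perm.mul_apply, Equiv.swap_apply_of_ne_of_ne hbc hbd,
    Equiv.swap_apply_left, Equiv.swap_apply_of_ne_of_ne hac.symm hbc.symm]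

theorem c4_c : c4 a b c d c = d := by
  unfold c4
  rw [Equiv.Perm.mul_apply, Equiv.Perm.mul_apply, Equiv.swap_apply_left,
    Equiv.swap_apply_of_ne_of_ne hbd.symm hcd.symm, Equiv.swap_apply_of_ne_of_ne had.symm hbd.symm]

theorem c4_d : c4 a b c d d = a := by
  unfold c4
  rw [Equiv.Perm.mul_apply, Equiv.Perm.mul_apply, Equiv.swap_apply_right,
    Equiv.swap_apply_right, Equiv.swap_apply_right]

theorem c22_a : c22 a b c d a = b := by
  unfold c22
  rw [Equiv.Perm.mul_apply, Equiv.swap_apply_of_ne_of_ne hac had, Equiv.swap_apply_left]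

theorem c22_b : c22 a b c d b = a := by
  unfold c22
  rw [Equiv.Perm.mul_apply, Equiv.swap_apply_of_ne_of_ne hbc hbd, Equiv.swap_apply_right]

theorem c22_c : c22 a b c d c = d := by
  unfold c22
  rw [Equiv.Perm.mul_apply, Equiv.swap_apply_left,
    Equiv.swap_apply_of_ne_of_ne had.symm hbd.symm]

theorem c22_d : c22 a b c d d = c := by
  unfold c22
  rw [Equiv.Perm.mul_apply, Equiv.swap_apply_right,
    Equiv.swap_apply_of_ne_of_ne hac.symm hbc.symm]

omit hab hac had hbc hbd hcd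

theorem c4_ne {x : X} (ha : x ≠ a) (hb : x ≠ b) (hc : x ≠ c) (hd : x ≠ d) : c4 a b c d x = x := by
  unfold c4
  rw [Equiv.Perm.mul_apply, Equiv.Perm.mul_apply, Equiv.swap_apply_of_ne_of_ne hc hd,
    Equiv.swap_apply_of_ne_of_ne hb hc, Equiv.swap_apply_of_ne_of_ne ha hb]

theorem c22_ne {x : X} (ha : x ≠ a) (hb : x ≠ b) (hc : x ≠ c) (hd : x ≠ d) :
    c22 a b c d x = x := by
  unfold c22
  rw [Equiv.Perm.mul_apply, Equiv.swap_apply_of_ne_of_ne hc hd,
    Equiv.swap_apply_of_ne_of_ne ha hb]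

end cyc

section fam

variable {h : ℕ}

/-- the base map -/
def fA (D : ZMod (2 * h) → ZMod 2) (x : ZMod 2 × ZMod (2 * h)) : ZMod 2 × ZMod (2 * h) :=
  if x.1 = 0 then (D x.2, -2 * x.2) else (D (x.2 - 5), 5 - 2 * x.2)

theorem two_h : ((2 * h : ℕ) : ZMod (2 * h)) = 0 := ZMod.natCast_self _

theorem two_mul_eq_zero [NeZero h] {x : ZMod (2 * h)} (hx : 2 * x = 0) : x = 0 ∨ x = (h : ℕ) := by
  have hn : NeZero (2 * h) := ⟨by have := NeZero.ne h; omega⟩
  have h1 : ((2 * x.val : ℕ) : ZMod (2 * h)) = 0 := by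
    push_cast
    rw [ZMod.natCast_zmod_val]
    exact hx
  rw [ZMod.natCast_eq_zero_iff] at h1
  have h2 : h ∣ x.val := Nat.dvd_of_mul_dvd_mul_left (by norm_num) h1
  have h3 := ZMod.val_lt x
  obtain ⟨c, hc⟩ := h2
  have hh : 0 < h := Nat.pos_of_ne_zero (NeZero.ne h)
  have hc2 : c < 2 := by
    by_contra hcon
    have : h * 2 ≤ h * c := Nat.mul_le_mul_left h (by omega)
    omega
  have h4 : x = ((x.val : ℕ) : ZMod (2 * h)) := (ZMod.natCast_zmod_val x).symm
  interval_cases c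
  · left
    rw [h4, hc]; simp
  · right
    rw [h4, hc]; simp

/-- reduction modulo 2 -/
def red (h : ℕ) : ZMod (2 * h) →+* ZMod 2 := ZMod.castHom (Dvd.intro h rfl) (ZMod 2)

theorem odd_ne {x y : ZMod (2 * h)} (hxy : -2 * x = 5 - 2 * y) : False := by
  have h1 := congrArg (red h) hxy
  simp only [map_mul, map_neg, map_sub, map_ofNat] at h1
  have h2 : (2 : ZMod 2) = 0 := by decide
  have h5 : (5 : ZMod 2) = 1 := by decide
  rw [h2, h5] at h1
  simp at h1

theorem fA_inj [NeZero h] {D : ZMod (2 * h) → ZMod 2} (hD : ∀ k, D (k + (h : ℕ)) = D k + 1) :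
    Function.Injective (fA D) := by
  have hDne : ∀ k, D (k + (h : ℕ)) ≠ D k := by
    intro k hk
    rw [hD] at hk
    simp at hk
  rintro ⟨ε, k⟩ ⟨ε', k'⟩ he
  unfold fA at he
  simp only at he
  have hcase : ∀ e : ZMod 2, e = 0 ∨ e = 1 := by decide
  rcases hcase ε with rfl | rfl <;> rcases hcase ε' with rfl | rfl
  · simp only [if_true, Prod.mk.injEq] at he
    obtain ⟨h1, h2⟩ := he
    have h3 : 2 * (k - k') = 0 := by linear_combination -h2
    rcases two_mul_eq_zero h3 with h4 | h4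
    · rw [sub_eq_zero.1 h4]
    · exfalso
      rw [sub_eq_iff_eq_add] at h4
      rw [h4, add_comm] at h1
      exact hDne k' h1
  · simp only [if_true, one_ne_zero, if_false, Prod.mk.injEq] at he
    exact (odd_ne he.2).elim
  · simp only [if_true, one_ne_zero, if_false, Prod.mk.injEq] at he
    exact (odd_ne he.2.symm).elim
  · simp only [one_ne_zero, if_false, Prod.mk.injEq] at he
    obtain ⟨h1, h2⟩ := he
    have h3 : 2 * (k - k') = 0 := by linear_combination -h2
    rcases two_mul_eq_zero h3 with h4 | h4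
    · rw [sub_eq_zero.1 h4]
    · exfalso
      rw [sub_eq_iff_eq_add] at h4
      have h5 : k - 5 = (k' - 5) + (h : ℕ) := by rw [h4]; ring
      rw [h5] at h1
      exact hDne _ h1

theorem addfA_inj {D : ZMod (2 * h) → ZMod 2} :
    Function.Injective (fun x => x + fA D x) := by
  rintro ⟨ε, k⟩ ⟨ε', k'⟩ he
  unfold fA at he
  simp only at he
  have hcase : ∀ e : ZMod 2, e = 0 ∨ e = 1 := by decide
  have h11 : ∀ e : ZMod 2, e ≠ 1 + e := by decide
  rcases hcase ε with rfl | rfl <;> rcases hcase ε' with rfl | rfl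
  · simp only [if_true, Prod.mk_add_mk, Prod.mk.injEq] at he
    have h2 := he.2
    have h3 : k = k' := by linear_combination -h2
    rw [h3]
  · simp only [if_true, one_ne_zero, if_false, Prod.mk_add_mk, Prod.mk.injEq, zero_add] at he
    exfalso
    have h2 := he.2
    have h3 : k = k' - 5 := by linear_combination -h2
    rw [← h3] at he
    exact h11 _ he.1
  · simp only [if_true, one_ne_zero, if_false, Prod.mk_add_mk, Prod.mk.injEq, zero_add] at he
    exfalso
    have h2 := he.2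
    have h3 : k' = k - 5 := by linear_combination h2
    rw [← h3] at he
    exact h11 _ he.1.symm
  · simp only [one_ne_zero, if_false, Prod.mk_add_mk, Prod.mk.injEq] at he
    have h2 := he.2
    have h3 : k = k' := by linear_combination -h2
    rw [h3]

theorem hh0 : (h : ZMod (2 * h)) + (h : ZMod (2 * h)) = 0 := by
  have := two_h (h := h)
  push_cast at this
  linear_combination this

/-- an antiperiodic function -/
theorem exists_B [NeZero h] : ∃ B : ZMod (2 * h) → ZMod 2, (∀ k, B (k + (h : ℕ)) = B k + 1) ∧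
    ∀ a : ℕ, a < 2 * h → B (a : ZMod (2 * h)) = if a < h then 0 else 1 := by
  have hn : NeZero (2 * h) := ⟨by have := NeZero.ne h; omega⟩
  have hpos : 0 < h := Nat.pos_of_ne_zero (NeZero.ne h)
  refine ⟨fun k => if k.val < h then 0 else 1, ?_, ?_⟩
  · intro k
    have h1 := ZMod.val_lt k
    have hv : ((h : ℕ) : ZMod (2 * h)).val = h := ZMod.val_natCast_of_lt (by omega)
    simp only
    by_cases hk : k.val < h
    · have h2 : (k + (h : ℕ)).val = k.val + h := by
        rw [ZMod.val_add_of_lt (by rw [hv]; omega), hv]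
      rw [h2, if_neg (by omega), if_pos hk, zero_add]
    · have h2 : (k + (h : ℕ)).val = k.val - h := by
        rw [ZMod.val_add, hv]
        have h3 : k.val + h = (k.val - h) + 2 * h := by omega
        rw [h3, Nat.add_mod_right, Nat.mod_eq_of_lt (by omega)]
      rw [h2, if_pos (by omega), if_neg hk]
      decide
  · intro a ha
    simp only
    rw [ZMod.val_natCast_of_lt ha]

theorem cast_inj' {a b : ℕ} (ha : a < 2 * h) (hb : b < 2 * h) :
    ((a : ZMod (2 * h)) = (b : ZMod (2 * h))) ↔ a = b := by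
  rw [ZMod.natCast_eq_natCast_iff', Nat.mod_eq_of_lt ha, Nat.mod_eq_of_lt hb]

theorem exists_D [NeZero h] (hh : 4 ≤ h) : ∃ D : ZMod (2 * h) → ZMod 2,
    (∀ k, D (k + (h : ℕ)) = D k + 1) ∧ D (-2) = 0 ∧ D (-1) = 1 ∧ D 0 = 0 ∧ D 1 = 0 := by
  obtain ⟨B, hB, hB2⟩ := exists_B (h := h)
  have e2 : (-2 : ZMod (2 * h)) = ((2 * h - 2 : ℕ) : ZMod (2 * h)) := by
    rw [Nat.cast_sub (by omega), two_h]
    push_cast; ring
  have e1 : (-1 : ZMod (2 * h)) = ((2 * h - 1 : ℕ) : ZMod (2 * h)) := by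
    rw [Nat.cast_sub (by omega), two_h]
    push_cast; ring
  have e3 : (-2 + (h : ℕ) : ZMod (2 * h)) = ((h - 2 : ℕ) : ZMod (2 * h)) := by
    rw [Nat.cast_sub (by omega)]
    push_cast; ring
  have e0 : (0 : ZMod (2 * h)) = ((0 : ℕ) : ZMod (2 * h)) := by simp
  have e4 : (1 : ZMod (2 * h)) = ((1 : ℕ) : ZMod (2 * h)) := by simp
  refine ⟨fun k => B k + (if k = -2 ∨ k = -2 + (h : ℕ) then 1 else 0), ?_, ?_, ?_, ?_, ?_⟩
  · intro k
    simp only
    rw [hB]
    have h1 : (k + (h : ℕ) = -2 ∨ k + (h : ℕ) = -2 + (h : ℕ)) ↔ (k = -2 ∨ k = -2 + (h : ℕ)) := by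
      have h3 : (k + (h : ℕ) = -2) ↔ (k = -2 + (h : ℕ)) := by
        have := hh0 (h := h)
        constructor
        · intro h4; linear_combination h4 - this
        · intro h4; linear_combination h4 + this
      rw [h3, add_left_inj, or_comm]
    by_cases h2 : k = -2 ∨ k = -2 + (h : ℕ)
    · rw [if_pos h2, if_pos (h1.2 h2)]
    · rw [if_neg h2, if_neg (fun h3 => h2 (h1.1 h3)), add_zero, add_zero]
  · simp only [true_or, if_true]
    rw [e2, hB2 _ (by omega), if_neg (by omega)]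
    decide
  · simp only
    rw [e1, e3, e2, hB2 _ (by omega), if_neg (by omega), if_neg ?_]
    · decide
    · rw [cast_inj' (by omega) (by omega), cast_inj' (by omega) (by omega)]
      omega
  · simp only
    rw [e0, e3, e2, hB2 _ (by omega), if_pos (by omega), if_neg ?_]
    · decide
    · rw [cast_inj' (by omega) (by omega), cast_inj' (by omega) (by omega)]
      omega
  · simp only
    rw [e4, e3, e2, hB2 _ (by omega), if_pos (by omega), if_neg ?_]
    · decide
    · rw [cast_inj' (by omega) (by omega), cast_inj' (by omega) (by omega)]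
      omega

/-- the permutation `f` -/
noncomputable def fE [NeZero h] {D : ZMod (2 * h) → ZMod 2} (hD : ∀ k, D (k + (h : ℕ)) = D k + 1) :
    Equiv.Perm (ZMod 2 × ZMod (2 * h)) :=
  haveI hn : NeZero (2 * h) := ⟨by have := NeZero.ne h; omega⟩
  Equiv.ofBijective _ (Finite.injective_iff_bijective.1 (fA_inj hD))

/-- the permutation `F` -/
noncomputable def FE [NeZero h] (D : ZMod (2 * h) → ZMod 2) :
    Equiv.Perm (ZMod 2 × ZMod (2 * h)) :=
  haveI hn : NeZero (2 * h) := ⟨by have := NeZero.ne h; omega⟩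
  Equiv.ofBijective _ (Finite.injective_iff_bijective.1 (addfA_inj (D := D)))

theorem t_FAMC : S_FAMC := by
  intro h hh
  have : NeZero h := ⟨by omega⟩
  obtain ⟨B, hB, -⟩ := exists_B (h := h)
  exact ⟨(fE hB : Equiv.Perm (ZMod 2 × ZMod (2 * h))), (FE B : Equiv.Perm (ZMod 2 × ZMod (2 * h))),
    fun x => rfl⟩

theorem t_FAM : S_FAM := by
  intro h _ hh
  have hn : NeZero (2 * h) := ⟨by have := NeZero.ne h; omega⟩
  obtain ⟨D, hD, d2, d1, d0, dp⟩ := exists_D (h := h) hh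
  have H2 : (h : ZMod (2 * h)) + (h : ZMod (2 * h)) = 0 := hh0
  have dh : D (h : ℕ) = 1 := by
    have := hD 0
    rwa [zero_add, d0, zero_add] at this
  have dh1 : D ((h : ℕ) - 1) = 0 := by
    have := hD (-1)
    rw [d1] at this
    rw [sub_eq_add_neg, add_comm, this]
    decide
  have dh2 : D ((h : ℕ) - 2) = 1 := by
    have := hD (-2)
    rw [d2] at this
    rw [sub_eq_add_neg, add_comm, this]
    decide
  have dhp : D ((h : ℕ) + 1) = 1 := by
    have := hD 1
    rw [dp] at this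
    rw [add_comm, this]
    decide
  have f0 : ∀ k, fA D (0, k) = (D k, -2 * k) := fun k => by unfold fA; simp
  have f1 : ∀ k, fA D (1, k) = (D (k - 5), 5 - 2 * k) := fun k => by
    unfold fA
    rw [if_neg (by decide : ¬ ((1 : ZMod 2) = 0))]
  -- the points
  set x1 : ZMod 2 × ZMod (2 * h) := (0, 0) with hx1
  set x2 : ZMod 2 × ZMod (2 * h) := (1, 3) with hx2
  set x3 : ZMod 2 × ZMod (2 * h) := (0, 1) with hx3
  set x4 : ZMod 2 × ZMod (2 * h) := (1, 4) with hx4
  set y1 : ZMod 2 × ZMod (2 * h) := (0, (h : ℕ)) with hy1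
  set y2 : ZMod 2 × ZMod (2 * h) := (0, (h : ℕ) - 1) with hy2
  set y3 : ZMod 2 × ZMod (2 * h) := (1, (h : ℕ) + 3) with hy3
  set y4 : ZMod 2 × ZMod (2 * h) := (0, (h : ℕ) + 1) with hy4
  have c0 : (0 : ZMod (2 * h)) = ((0 : ℕ) : ZMod (2 * h)) := by simp
  have c1 : (1 : ZMod (2 * h)) = ((1 : ℕ) : ZMod (2 * h)) := by simp
  have c3 : (3 : ZMod (2 * h)) = ((3 : ℕ) : ZMod (2 * h)) := by simp
  have c4' : (4 : ZMod (2 * h)) = ((4 : ℕ) : ZMod (2 * h)) := by simp
  have ch1 : ((h : ℕ) - 1 : ZMod (2 * h)) = ((h - 1 : ℕ) : ZMod (2 * h)) := by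
    rw [Nat.cast_sub (by omega)]; simp
  have ch3 : ((h : ℕ) + 3 : ZMod (2 * h)) = ((h + 3 : ℕ) : ZMod (2 * h)) := by push_cast; rfl
  have chp : ((h : ℕ) + 1 : ZMod (2 * h)) = ((h + 1 : ℕ) : ZMod (2 * h)) := by push_cast; rfl
  have hne : ∀ (ε : ZMod 2) (u v : ZMod (2 * h)), u ≠ v → (ε, u) ≠ (ε, v) := by
    intro ε u v huv he
    exact huv (Prod.mk.inj he).2
  have hne2 : ∀ (u v : ZMod (2 * h)), ((0 : ZMod 2), u) ≠ (1, v) := by
    intro u v he
    exact absurd (Prod.mk.inj he).1 (by decide)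
  have x12 : x1 ≠ x2 := hne2 _ _
  have x13 : x1 ≠ x3 := hne _ _ _ (by rw [c0, c1, Ne, cast_inj' (by omega) (by omega)]; omega)
  have x14 : x1 ≠ x4 := hne2 _ _
  have x23 : x2 ≠ x3 := (hne2 _ _).symm
  have x24 : x2 ≠ x4 := hne _ _ _ (by rw [c3, c4', Ne, cast_inj' (by omega) (by omega)]; omega)
  have x34 : x3 ≠ x4 := hne2 _ _
  have y12 : y1 ≠ y2 := hne _ _ _ (by rw [ch1, Ne, cast_inj' (by omega) (by omega)]; omega)
  have y13 : y1 ≠ y3 := hne2 _ _
  have y14 : y1 ≠ y4 := hne _ _ _ (by rw [chp, Ne, cast_inj' (by omega) (by omega)]; omega)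
  have y23 : y2 ≠ y3 := hne2 _ _
  have y24 : y2 ≠ y4 := hne _ _ _ (by rw [ch1, chp, Ne, cast_inj' (by omega) (by omega)]; omega)
  have y34 : y3 ≠ y4 := (hne2 _ _).symm
  have xy11 : x1 ≠ y1 := hne _ _ _ (by rw [c0, Ne, cast_inj' (by omega) (by omega)]; omega)
  have xy12 : x1 ≠ y2 := hne _ _ _ (by rw [c0, ch1, Ne, cast_inj' (by omega) (by omega)]; omega)
  have xy13 : x1 ≠ y3 := hne2 _ _
  have xy14 : x1 ≠ y4 := hne _ _ _ (by rw [c0, chp, Ne, cast_inj' (by omega) (by omega)]; omega)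
  have xy21 : x2 ≠ y1 := (hne2 _ _).symm
  have xy22 : x2 ≠ y2 := (hne2 _ _).symm
  have xy23 : x2 ≠ y3 := hne _ _ _ (by rw [ch3, c3, Ne, cast_inj' (by omega) (by omega)]; omega)
  have xy24 : x2 ≠ y4 := (hne2 _ _).symm
  have xy31 : x3 ≠ y1 := hne _ _ _ (by rw [c1, Ne, cast_inj' (by omega) (by omega)]; omega)
  have xy32 : x3 ≠ y2 := hne _ _ _ (by
    rw [ch1, c1, Ne, cast_inj' (by omega) (by omega)]; omega)
  have xy33 : x3 ≠ y3 := hne2 _ _
  have xy34 : x3 ≠ y4 := hne _ _ _ (by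
    rw [chp, c1, Ne, cast_inj' (by omega) (by omega)]; omega)
  have xy41 : x4 ≠ y1 := (hne2 _ _).symm
  have xy42 : x4 ≠ y2 := (hne2 _ _).symm
  have xy43 : x4 ≠ y3 := hne _ _ _ (by rw [ch3, c4', Ne, cast_inj' (by omega) (by omega)]; omega)
  have xy44 : x4 ≠ y4 := (hne2 _ _).symm
  -- the trades
  set σ : Equiv.Perm (ZMod 2 × ZMod (2 * h)) := c4 x1 x2 x4 x3 with hσ
  set τ : Equiv.Perm (ZMod 2 × ZMod (2 * h)) := c4 x1 x3 x4 x2 with hτ
  set σ' : Equiv.Perm (ZMod 2 × ZMod (2 * h)) := c22 y1 y2 y3 y4 with hσ'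
  set τ' : Equiv.Perm (ZMod 2 × ZMod (2 * h)) := c4 y1 y3 y2 y4 with hτ'
  have h0 : ∀ x, FE D x = x + fE hD x := fun x => rfl
  have hF : ∀ x, FE D x = x + fA D x := fun x => rfl
  have hf : ∀ x, fE hD x = fA D x := fun x => rfl
  have hσx : ∀ x, x ≠ x1 → x ≠ x2 → x ≠ x3 → x ≠ x4 → σ x = x ∧ τ x = x := fun x h1 h2 h3 h4 =>
    ⟨c4_ne h1 h2 h4 h3, c4_ne h1 h3 h4 h2⟩
  have hσy : ∀ x, x ≠ y1 → x ≠ y2 → x ≠ y3 → x ≠ y4 → σ' x = x ∧ τ' x = x := fun x h1 h2 h3 h4 =>
    ⟨c22_ne h1 h2 h3 h4, c4_ne h1 h3 h2 h4⟩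
  have h1 : ∀ x, FE D (τ x) = x + fE hD (σ x) := by
    intro x
    by_cases e1 : x = x1
    · rw [e1, hτ, hσ, c4_a x13 x14 x12 x34 x23.symm x24.symm, c4_a x12 x14 x13 x24 x23 x34.symm, hF, hf,
        hx3, hx1, hx2, f0, f1]
      refine Prod.ext ?_ ?_
      · simp only [Prod.mk_add_mk]
        rw [dp, show (3 - 5 : ZMod (2 * h)) = -2 by ring, d2]
      · simp only [Prod.mk_add_mk]
        ring
    by_cases e2 : x = x2
    · rw [e2, hτ, hσ, c4_d x13 x14 x12 x34 x23.symm x24.symm, c4_b x12 x14 x13 x24 x23 x34.symm, hF, hf,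
        hx1, hx2, hx4, f0, f1]
      refine Prod.ext ?_ ?_
      · simp only [Prod.mk_add_mk]
        rw [d0, show (4 - 5 : ZMod (2 * h)) = -1 by ring, d1]
        decide
      · simp only [Prod.mk_add_mk]
        ring
    by_cases e3 : x = x3
    · rw [e3, hτ, hσ, c4_b x13 x14 x12 x34 x23.symm x24.symm, c4_d x12 x14 x13 x24 x23 x34.symm, hF, hf,
        hx1, hx3, hx4, f0, f1]
      refine Prod.ext ?_ ?_
      · simp only [Prod.mk_add_mk]
        rw [d0, show (4 - 5 : ZMod (2 * h)) = -1 by ring, d1]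
        decide
      · simp only [Prod.mk_add_mk]
        ring
    by_cases e4 : x = x4
    · rw [e4, hτ, hσ, c4_c x13 x14 x12 x34 x23.symm x24.symm, c4_c x12 x14 x13 x24 x23 x34.symm, hF, hf,
        hx2, hx3, hx4, f0, f1]
      refine Prod.ext ?_ ?_
      · simp only [Prod.mk_add_mk]
        rw [dp, show (3 - 5 : ZMod (2 * h)) = -2 by ring, d2]
      · simp only [Prod.mk_add_mk]
        ring
    · rw [(hσx x e1 e2 e3 e4).1, (hσx x e1 e2 e3 e4).2, h0]
  have h2 : ∀ x, FE D (τ' x) = x + fE hD (σ' x) := by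
    intro x
    by_cases e1 : x = y1
    · rw [e1, hτ', hσ', c4_a y13 y12 y14 y23.symm y34 y24, c22_a y12 y13 y14 y23 y24 y34, hF, hf,
        hy1, hy2, hy3, f0, f1]
      refine Prod.ext ?_ ?_
      · simp only [Prod.mk_add_mk]
        rw [dh1, show ((h : ZMod (2 * h)) + 3 - 5) = h - 2 by ring, dh2]
        decide
      · simp only [Prod.mk_add_mk]
        linear_combination (0 : ZMod (2 * h)) * H2
    by_cases e2 : x = y2
    · rw [e2, hτ', hσ', c4_c y13 y12 y14 y23.symm y34 y24, c22_b y12 y13 y14 y23 y24 y34, hF, hf,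
        hy1, hy2, hy4, f0, f0]
      refine Prod.ext ?_ ?_
      · simp only [Prod.mk_add_mk]
        rw [dhp, dh]
      · simp only [Prod.mk_add_mk]
        linear_combination (0 : ZMod (2 * h)) * H2
    by_cases e3 : x = y3
    · rw [e3, hτ', hσ', c4_b y13 y12 y14 y23.symm y34 y24, c22_c y12 y13 y14 y23 y24 y34, hF, hf,
        hy2, hy3, hy4, f0, f0]
      refine Prod.ext ?_ ?_
      · simp only [Prod.mk_add_mk]
        rw [dh1, dhp]
        decide
      · simp only [Prod.mk_add_mk]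
        linear_combination (0 : ZMod (2 * h)) * H2
    by_cases e4 : x = y4
    · rw [e4, hτ', hσ', c4_d y13 y12 y14 y23.symm y34 y24, c22_d y12 y13 y14 y23 y24 y34, hF, hf,
        hy1, hy3, hy4, f0, f1]
      refine Prod.ext ?_ ?_
      · simp only [Prod.mk_add_mk]
        rw [dh, show ((h : ZMod (2 * h)) + 3 - 5) = h - 2 by ring, dh2]
      · simp only [Prod.mk_add_mk]
        linear_combination (0 : ZMod (2 * h)) * H2
    · rw [(hσy x e1 e2 e3 e4).1, (hσy x e1 e2 e3 e4).2, h0]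
  have h3 : ∀ x, FE D (τ (τ' x)) = x + fE hD (σ (σ' x)) := by
    intro x
    by_cases hx : x = y1 ∨ x = y2 ∨ x = y3 ∨ x = y4
    · have e1 : σ (σ' x) = σ' x := by
        rcases hx with rfl | rfl | rfl | rfl
        · rw [hσ', c22_a y12 y13 y14 y23 y24 y34]
          exact (hσx y2 xy12.symm xy22.symm xy32.symm xy42.symm).1
        · rw [hσ', c22_b y12 y13 y14 y23 y24 y34]
          exact (hσx y1 xy11.symm xy21.symm xy31.symm xy41.symm).1
        · rw [hσ', c22_c y12 y13 y14 y23 y24 y34]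
          exact (hσx y4 xy14.symm xy24.symm xy34.symm xy44.symm).1
        · rw [hσ', c22_d y12 y13 y14 y23 y24 y34]
          exact (hσx y3 xy13.symm xy23.symm xy33.symm xy43.symm).1
      have e2 : τ (τ' x) = τ' x := by
        rcases hx with rfl | rfl | rfl | rfl
        · rw [hτ', c4_a y13 y12 y14 y23.symm y34 y24]
          exact (hσx y3 xy13.symm xy23.symm xy33.symm xy43.symm).2
        · rw [hτ', c4_c y13 y12 y14 y23.symm y34 y24]
          exact (hσx y4 xy14.symm xy24.symm xy34.symm xy44.symm).2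
        · rw [hτ', c4_b y13 y12 y14 y23.symm y34 y24]
          exact (hσx y2 xy12.symm xy22.symm xy32.symm xy42.symm).2
        · rw [hτ', c4_d y13 y12 y14 y23.symm y34 y24]
          exact (hσx y1 xy11.symm xy21.symm xy31.symm xy41.symm).2
      rw [e1, e2, h2]
    · push Not at hx
      obtain ⟨e1, e2, e3, e4⟩ := hx
      rw [(hσy x e1 e2 e3 e4).1, (hσy x e1 e2 e3 e4).2, h1]
  refine AllPar_of_trades (ZZ h) (fE hD : Equiv.Perm (ZMod 2 × ZMod (2 * h)))
    (FE D : Equiv.Perm (ZMod 2 × ZMod (2 * h))) σ τ σ' τ' h0 h1 h2 h3 ?_ ?_ ?_ ?_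
  · exact sgn_c4 x12 x24 x34.symm
  · exact sgn_c4 x13 x34 x24.symm
  · exact sgn_c22 y12 y34
  · exact sgn_c4 y13 y23.symm y24

end fam

end H81.AB
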