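import Pool.Agent.H81.AB.Stm

/-!
# Part NC
-/

set_option autoImplicit false

namespace H81.AB

open Pool.Agent.Y382.PAR

universe u

section

variable {G : Type u} [CommGroup G] [Finite G]

theorem exists_sq_mem (hG : IsPGroup 2 G) (K : Subgroup G) (hK : K ≠ ⊤) :
    ∃ b : G, b ∉ K ∧ b ^ 2 ∈ K := by
  have hq : IsPGroup 2 (G ⧸ K) := hG.to_quotient K
  have hnt : Nontrivial (G ⧸ K) := by
    rw [QuotientGroup.nontrivial_iff]
    exact hK
  obtain ⟨n, hn⟩ := IsPGroup.iff_card.1 hq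
  have hn0 : n ≠ 0 := by
    rintro rfl
    rw [pow_zero] at hn
    have := Finite.one_lt_card (α := G ⧸ K)
    omega
  obtain ⟨q, hq2⟩ := exists_prime_orderOf_dvd_card' (G := G ⧸ K) 2 (by
    rw [hn]; exact dvd_pow_self 2 hn0)
  obtain ⟨b, rfl⟩ := QuotientGroup.mk_surjective q
  refine ⟨b, ?_, ?_⟩
  · intro hb
    rw [(QuotientGroup.eq_one_iff b).2 hb, orderOf_one] at hq2
    omega
  · rw [← QuotientGroup.eq_one_iff, QuotientGroup.mk_pow, ← hq2]
    exact pow_orderOf_eq_one _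

theorem exists_max : ∃ a : G, ∀ g : G, g ^ orderOf a = 1 := by
  obtain ⟨a, ha⟩ := Monoid.exists_orderOf_eq_exponent (G := G) Monoid.ExponentExists.of_finite
  exact ⟨a, fun g => by rw [ha]; exact Monoid.pow_exponent_eq_one g⟩

theorem orderOf_pow_two (hG : IsPGroup 2 G) (a : G) : ∃ c : ℕ, orderOf a = 2 ^ c :=
  (IsPGroup.iff_orderOf.1 hG) a

/-- in a noncyclic group there is an involution outside of the cyclic group generated by an element of maximal
order -/
theorem exists_inv_notMem (hG : IsPGroup 2 G) (hnc : ¬ IsCyclic G) {a : G}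
    (ha : ∀ g : G, g ^ orderOf a = 1) : ∃ s : G, s ^ 2 = 1 ∧ s ∉ Subgroup.zpowers a := by
  have hK : Subgroup.zpowers a ≠ ⊤ := by
    intro h
    apply hnc
    refine ⟨a, fun x => ?_⟩
    have hx : x ∈ Subgroup.zpowers a := by rw [h]; exact Subgroup.mem_top x
    exact hx
  obtain ⟨b, hb, hb2⟩ := exists_sq_mem hG _ hK
  obtain ⟨j, hj⟩ := Subgroup.mem_zpowers_iff.1 hb2
  obtain ⟨c, hc⟩ := orderOf_pow_two hG a
  have hc0 : c ≠ 0 := by
    rintro rfl
    rw [pow_zero] at hc
    have := ha b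
    rw [hc, pow_one] at this
    rw [this] at hb
    exact hb (Subgroup.one_mem _)
  obtain ⟨c', rfl⟩ := Nat.exists_eq_succ_of_ne_zero hc0
  have h1 : a ^ (j * (2 ^ c' : ℕ)) = 1 := by
    have := ha b
    rw [hc, pow_succ', pow_mul, ← hj, ← zpow_natCast, ← zpow_mul] at this
    exact this
  have h2 : ((2 ^ (c' + 1) : ℕ) : ℤ) ∣ j * (2 ^ c' : ℕ) := by
    rw [← hc]; exact orderOf_dvd_iff_zpow_eq_one.2 h1
  have h3 : (2 : ℤ) ∣ j := by
    rw [pow_succ'] at h2
    push_cast at h2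
    have h0 : (2 ^ c' : ℤ) ≠ 0 := by positivity
    exact Int.dvd_of_mul_dvd_mul_right h0 h2
  obtain ⟨i, hi⟩ := h3
  refine ⟨b * a ^ (-i), ?_, ?_⟩
  · rw [mul_pow, ← hj, hi, ← zpow_natCast (a ^ (-i)), ← zpow_mul, ← zpow_add]
    have : 2 * i + -i * ((2 : ℕ) : ℤ) = 0 := by push_cast; ring
    rw [this, zpow_zero]
  · intro h
    apply hb
    have : b = b * a ^ (-i) * a ^ i := by rw [mul_assoc, ← zpow_add]; simp
    rw [this]
    exact Subgroup.mul_mem _ h (Subgroup.zpow_mem_zpowers a i)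

theorem not_cyclic_of_two {x y : G} (hx : x ^ 2 = 1) (hy : y ^ 2 = 1) (hx1 : x ≠ 1) (hy1 : y ≠ 1)
    (hxy : x ≠ y) : ¬ IsCyclic G := by
  classical
  intro hc
  have := Fintype.ofFinite G
  have h1 := IsCyclic.card_pow_eq_one_le (α := G) (n := 2) (by norm_num)
  have h2 : ({1, x, y} : Finset G) ⊆ Finset.univ.filter (fun a : G => a ^ 2 = 1) := by
    intro z hz
    simp only [Finset.mem_insert, Finset.mem_singleton] at hz
    rw [Finset.mem_filter]
    refine ⟨Finset.mem_univ _, ?_⟩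
    rcases hz with rfl | rfl | rfl
    · simp
    · exact hx
    · exact hy
  have h3 := Finset.card_le_card h2
  rw [Finset.card_insert_of_notMem (by simp [hx1.symm, hy1.symm]),
    Finset.card_insert_of_notMem (by simp [hxy]), Finset.card_singleton] at h3
  omega

end

theorem t_NC : S_NC.{u} := by
  intro G _ _ hG
  constructor
  · intro hnc
    obtain ⟨a, ha⟩ := exists_max (G := G)
    obtain ⟨s, hs, hsa⟩ := exists_inv_notMem hG hnc ha
    obtain ⟨c, hc⟩ := orderOf_pow_two hG a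
    have hc0 : c ≠ 0 := by
      rintro rfl
      apply hnc
      rw [pow_zero] at hc
      refine ⟨1, fun x => ?_⟩
      have := ha x
      rw [hc, pow_one] at this
      exact ⟨0, by simp [this]⟩
    obtain ⟨c', rfl⟩ := Nat.exists_eq_succ_of_ne_zero hc0
    refine ⟨s, a ^ (2 ^ c'), hs, ?_, ?_, ?_, ?_⟩
    · rw [← pow_mul, ← pow_succ, ← hc]
      exact pow_orderOf_eq_one a
    · rintro rfl
      exact hsa (Subgroup.one_mem _)
    · intro h
      have h1 := orderOf_dvd_of_pow_eq_one h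
      rw [hc] at h1
      have h2 := Nat.le_of_dvd (by positivity) h1
      have h3 : 2 ^ c' < 2 ^ (c' + 1) := Nat.pow_lt_pow_right (by norm_num) (by omega)
      omega
    · rintro rfl
      exact hsa (Subgroup.pow_mem _ (Subgroup.mem_zpowers a) _)
  · rintro ⟨x, y, hx, hy, hx1, hy1, hxy⟩
    exact not_cyclic_of_two hx hy hx1 hy1 hxy

end H81.AB
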