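import Pool.Agent.H81.AB.Nc
import Pool.Agent.H81.AB.Iso
import Pool.Agent.H81.AB.Fam

/-!
# Part PAI: noncyclic abelian 2-groups have complete mappings
-/

set_option autoImplicit false

namespace H81.AB

open Pool.Agent.Y382.PAR

universe u

section

variable {G : Type u} [CommGroup G] [Finite G]

/-- a group of order 4 and exponent 2 has a complete mapping -/
theorem CM_four (hcard : Nat.card G = 4) (hexp : ∀ x : G, x ^ 2 = 1) : CM G := by
  have hnt : Nontrivial G := Finite.one_lt_card_iff_nontrivial.1 (by omega)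
  obtain ⟨a, ha⟩ := exists_ne (1 : G)
  have hoa : orderOf a = 2 * 1 := by
    rw [mul_one]
    exact orderOf_eq_prime (hexp a) ha
  obtain ⟨s, hs⟩ : ∃ s : G, s ∉ Subgroup.zpowers a := by
    by_contra hcon
    push Not at hcon
    have h1 : Subgroup.zpowers a = ⊤ := by
      rw [Subgroup.eq_top_iff']
      exact hcon
    have h2 := Nat.card_zpowers a
    rw [h1, Subgroup.card_top, hcard, hoa] at h2
    omega
  obtain ⟨e⟩ := t_DEC G s a 1 le_rfl (hexp s) hoa hs (by rw [hcard])
  exact iso_CM e (t_FAMC 1 le_rfl)

/-- the subgroup generated by two involutions -/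
theorem exists_four {x y : G} (hx : x ^ 2 = 1) (hy : y ^ 2 = 1) (hx1 : x ≠ 1) (hy1 : y ≠ 1)
    (hxy : x ≠ y) : ∃ V : Subgroup G, Nat.card V = 4 ∧ x ∈ V ∧ y ∈ V ∧ (∀ z ∈ V, z ^ 2 = 1) ∧
      ∀ z ∈ V, z = 1 ∨ z = x ∨ z = y ∨ z = x * y := by
  classical
  have hx' : x * x = 1 := by rw [← sq]; exact hx
  have hy' : y * y = 1 := by rw [← sq]; exact hy
  have hxy1 : x * y ≠ 1 := by
    intro h
    apply hxy
    calc x = x * (y * y) := by rw [hy', mul_one]
      _ = x * y * y := by rw [mul_assoc]
      _ = y := by rw [h, one_mul]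
  let S : Finset G := {1, x, y, x * y}
  have hmem : ∀ z, z ∈ S ↔ z = 1 ∨ z = x ∨ z = y ∨ z = x * y := by
    intro z; simp [S]
  have hmul : ∀ a b, a ∈ S → b ∈ S → a * b ∈ S := by
    intro a b ha hb
    rw [hmem] at ha hb ⊢
    have e1 : x * (x * y) = y := by rw [← mul_assoc, hx', one_mul]
    have e2 : y * (x * y) = x := by rw [mul_comm x y, ← mul_assoc, hy', one_mul]
    have e3 : x * y * x = y := by rw [mul_comm, e1]
    have e4 : x * y * y = x := by rw [mul_assoc, hy', mul_one]
    have e5 : x * y * (x * y) = 1 := by rw [mul_assoc, e2, hx']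
    rcases ha with rfl | rfl | rfl | rfl <;> rcases hb with rfl | rfl | rfl | rfl
    all_goals first
      | (left; simp [*]; done)
      | (right; left; simp [*]; done)
      | (right; right; left; simp [*]; done)
      | (right; right; right; simp [*]; done)
      | (right; right; right; rw [mul_comm]; done)
  let V : Subgroup G :=
    { carrier := S
      mul_mem' := fun {a b} ha hb => hmul a b ha hb
      one_mem' := by
        change (1 : G) ∈ S
        rw [hmem]; left; rfl
      inv_mem' := by
        intro a ha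
        change a⁻¹ ∈ S
        have ha' : a ∈ S := ha
        have h2 : a * a = 1 := by
          rw [hmem] at ha'
          rcases ha' with rfl | rfl | rfl | rfl
          · simp
          · exact hx'
          · exact hy'
          · rw [mul_mul_mul_comm, hx', hy', mul_one]
        rw [inv_eq_of_mul_eq_one_left h2]
        exact ha' }
  refine ⟨V, ?_, ?_, ?_, ?_, fun z hz => (hmem z).1 hz⟩
  · have h1 : Nat.card V = S.card := by
      change Nat.card (S : Set G) = S.card
      simp
    rw [h1]
    have : S.card = 4 := by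
      rw [Finset.card_insert_of_notMem, Finset.card_insert_of_notMem,
        Finset.card_insert_of_notMem, Finset.card_singleton]
      · rw [Finset.mem_singleton]
        intro h
        apply hx1
        calc x = x * (y * y) := by rw [hy', mul_one]
          _ = x * y * y := by rw [mul_assoc]
          _ = 1 := by rw [← h, hy']
      · rw [Finset.mem_insert, Finset.mem_singleton]
        rintro (h | h)
        · exact hxy h
        · apply hy1
          have : x * 1 = x * y := by rw [mul_one]; exact h
          exact (mul_left_cancel this).symm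
      · rw [Finset.mem_insert, Finset.mem_insert, Finset.mem_singleton]
        rintro (h | h | h)
        · exact hx1 h.symm
        · exact hy1 h.symm
        · exact hxy1 h.symm
    exact this
  · change x ∈ S
    rw [hmem]; right; left; rfl
  · change y ∈ S
    rw [hmem]; right; right; left; rfl
  · intro z hz
    have hz' : z ∈ S := hz
    rw [hmem] at hz'
    rcases hz' with rfl | rfl | rfl | rfl
    · simp
    · exact hx
    · exact hy
    · rw [mul_pow, hx, hy, mul_one]

end

theorem t_PAI (hE8 : S_E8.{u}) : S_PAI.{u} := by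
  intro G _ _ hG hnc
  -- strong induction on the order
  induction hn : Nat.card G using Nat.strong_induction_on generalizing G with
  | _ n ih =>
  subst hn
  -- reduction: a subgroup `V` of order four with noncyclic quotient
  have hred : ∀ V : Subgroup G, Nat.card V = 4 → (∀ z ∈ V, z ^ 2 = 1) →
      (∃ p q : G, p ^ 2 ∈ V ∧ q ^ 2 ∈ V ∧ p ∉ V ∧ q ∉ V ∧ p * q⁻¹ ∉ V) → CM G := by
    intro V hV hV2 ⟨p, q, hp, hq, hp', hq', hpq⟩
    have h1 : ¬ IsCyclic (G ⧸ V) := by
      refine not_cyclic_of_two (x := (p : G ⧸ V)) (y := (q : G ⧸ V)) ?_ ?_ ?_ ?_ ?_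
      · rw [← QuotientGroup.mk_pow]; exact (QuotientGroup.eq_one_iff _).2 hp
      · rw [← QuotientGroup.mk_pow]; exact (QuotientGroup.eq_one_iff _).2 hq
      · exact fun h => hp' ((QuotientGroup.eq_one_iff _).1 h)
      · exact fun h => hq' ((QuotientGroup.eq_one_iff _).1 h)
      · intro h
        apply hpq
        rw [← QuotientGroup.eq_one_iff, QuotientGroup.mk_mul, QuotientGroup.mk_inv, h,
          mul_inv_cancel]
    have h2 : Nat.card (G ⧸ V) < Nat.card G := by
      have h3 := V.card_mul_index
      rw [hV] at h3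
      have h4 : Nat.card (G ⧸ V) = V.index := rfl
      have h5 : 0 < Nat.card G := Nat.card_pos
      omega
    have h3 : CM (G ⧸ V) := ih _ h2 (G ⧸ V) (hG.to_quotient V) h1 rfl
    have h4 : CM V := CM_four hV fun x => by
      apply Subtype.ext
      rw [Subgroup.coe_pow]
      exact hV2 x x.2
    exact t_EXTC G V h3 h4
  obtain ⟨a, ha⟩ := exists_max (G := G)
  obtain ⟨s, hs, hsa⟩ := exists_inv_notMem hG hnc ha
  obtain ⟨c, hc⟩ := orderOf_pow_two hG a
  have hs1 : s ≠ 1 := by
    rintro rfl
    exact hsa (Subgroup.one_mem _)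
  have hc0 : c ≠ 0 := by
    rintro rfl
    rw [pow_zero] at hc
    have := ha s
    rw [hc, pow_one] at this
    exact hs1 this
  obtain ⟨c', rfl⟩ := Nat.exists_eq_succ_of_ne_zero hc0
  have hz2 : (a ^ (2 ^ c')) ^ 2 = 1 := by
    rw [← pow_mul, ← pow_succ, ← hc]
    exact pow_orderOf_eq_one a
  have hz1 : a ^ (2 ^ c') ≠ 1 := by
    intro h
    have h1 := orderOf_dvd_of_pow_eq_one h
    rw [hc] at h1
    have h2 := Nat.le_of_dvd (by positivity) h1
    have h3 : 2 ^ c' < 2 ^ (c' + 1) := Nat.pow_lt_pow_right (by norm_num) (by omega)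
    omega
  have hzs : a ^ (2 ^ c') ≠ s := by
    rintro rfl
    exact hsa (Subgroup.pow_mem _ (Subgroup.mem_zpowers a) _)
  -- `V = ⟨z, s⟩`
  obtain ⟨V, hV4, hzV, hsV, hV2, hVm⟩ := exists_four hz2 hs hz1 hs1 hzs
  set z := a ^ (2 ^ c') with hz
  have hza : z ∈ Subgroup.zpowers a := Subgroup.pow_mem _ (Subgroup.mem_zpowers a) _
  have hss : s * s = 1 := by rw [← sq]; exact hs
  have hVK : V ≤ Subgroup.zpowers a ⊔ V := le_sup_right
  have haK : Subgroup.zpowers a ≤ Subgroup.zpowers a ⊔ V := le_sup_left
  have memK : ∀ b, b ∈ Subgroup.zpowers a ⊔ V →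
      b ∈ Subgroup.zpowers a ∨ b * s ∈ Subgroup.zpowers a := by
    intro b hb
    obtain ⟨y, hy, v, hv, rfl⟩ := Subgroup.mem_sup.1 hb
    rcases hVm v hv with rfl | rfl | rfl | rfl
    · left; rw [mul_one]; exact hy
    · left; exact Subgroup.mul_mem _ hy hza
    · right; rw [mul_assoc, hss, mul_one]; exact hy
    · right
      rw [mul_assoc, mul_assoc, hss, mul_one]
      exact Subgroup.mul_mem _ hy hza
  by_cases htop : Subgroup.zpowers a ⊔ V = ⊤
  · -- `G ≃ Z/2 × Z/2h`
    have hcard : Nat.card G = 4 * 2 ^ c' := by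
      have h1 : Nat.card (Subgroup.zpowers a) = 2 ^ (c' + 1) := by rw [Nat.card_zpowers, hc]
      have h2 : (Subgroup.zpowers a).index = 2 := by
        rw [Subgroup.index_eq_two_iff]
        refine ⟨s, fun b => ?_⟩
        rcases memK b (by rw [htop]; exact Subgroup.mem_top b) with hb | hb
        · right
          refine ⟨hb, fun h => hsa ?_⟩
          have := Subgroup.mul_mem _ (Subgroup.inv_mem _ hb) h
          rwa [inv_mul_cancel_left] at this
        · left
          refine ⟨hb, fun h => hsa ?_⟩
          have := Subgroup.mul_mem _ (Subgroup.inv_mem _ h) hb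
          rwa [inv_mul_cancel_left] at this
      have h3 := (Subgroup.zpowers a).card_mul_index
      rw [h1, h2] at h3
      rw [← h3]; ring
    obtain ⟨e⟩ := t_DEC G s a (2 ^ c') (Nat.one_le_two_pow) hs (by rw [hc, pow_succ']) hsa hcard
    exact iso_CM e (t_FAMC _ Nat.one_le_two_pow)
  · obtain ⟨b, hb, hb2⟩ := exists_sq_mem hG _ htop
    rcases Nat.eq_zero_or_pos c' with rfl | hc'
    · -- exponent two
      have hexp : ∀ g : G, g ^ 2 = 1 := by
        intro g
        have := ha g
        rw [hc] at this
        simpa using this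
      by_cases h8 : Nat.card G = 8
      · exact hE8 G h8 hexp
      · have hbV : b ∉ V := fun h => hb (hVK h)
        have hW : V ⊔ Subgroup.zpowers b ≠ ⊤ := by
          intro hW
          apply h8
          have h2 : V.index = 2 := by
            rw [Subgroup.index_eq_two_iff]
            refine ⟨b, fun g => ?_⟩
            have hg : g ∈ V ⊔ Subgroup.zpowers b := by rw [hW]; exact Subgroup.mem_top g
            obtain ⟨v, hv, w, hw, rfl⟩ := Subgroup.mem_sup.1 hg
            have hbb : b * b = 1 := by rw [← sq]; exact hexp b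
            obtain ⟨k, rfl⟩ := Subgroup.mem_zpowers_iff.1 hw
            have hk : b ^ k = 1 ∨ b ^ k = b := by
              rcases Int.even_or_odd k with he | ho
              · left
                obtain ⟨l, rfl⟩ := he.two_dvd
                rw [zpow_mul]
                have : b ^ (2 : ℤ) = 1 := by exact_mod_cast hexp b
                rw [this, one_zpow]
              · right
                obtain ⟨l, rfl⟩ := ho
                rw [zpow_add, zpow_mul, zpow_one]
                have : b ^ (2 : ℤ) = 1 := by exact_mod_cast hexp b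
                rw [this, one_zpow, one_mul]
            rcases hk with hk | hk
            · rw [hk, mul_one]
              right
              refine ⟨hv, fun h => hbV ?_⟩
              have := Subgroup.mul_mem _ (Subgroup.inv_mem _ hv) h
              rwa [inv_mul_cancel_left] at this
            · rw [hk, mul_assoc, hbb, mul_one]
              left
              refine ⟨hv, fun h => hbV ?_⟩
              have := Subgroup.mul_mem _ (Subgroup.inv_mem _ hv) h
              rwa [inv_mul_cancel_left] at this
          have h3 := V.card_mul_index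
          rw [hV4, h2] at h3
          omega
        obtain ⟨q, hq, -⟩ := exists_sq_mem hG _ hW
        refine hred V hV4 hV2 ⟨b, q, ?_, ?_, hbV, ?_, ?_⟩
        · rw [hexp]; exact V.one_mem
        · rw [hexp]; exact V.one_mem
        · exact fun h => hq ((le_sup_left : V ≤ V ⊔ Subgroup.zpowers b) h)
        · intro h
          apply hq
          have h1 : q = (b * q⁻¹)⁻¹ * b := by
            rw [mul_inv_rev, inv_inv, mul_assoc, inv_mul_cancel, mul_one]
          rw [h1]
          exact Subgroup.mul_mem _ (Subgroup.inv_mem _ ((le_sup_left : V ≤ _) h))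
            ((le_sup_right : Subgroup.zpowers b ≤ _) (Subgroup.mem_zpowers b))
    · -- exponent at least four
      obtain ⟨c'', rfl⟩ := Nat.exists_eq_succ_of_ne_zero hc'.ne'
      -- an element `t ∈ V` and an integer `j` with `b ^ 2 = t * a ^ j`
      obtain ⟨t, ht, j, hj⟩ : ∃ t ∈ V, ∃ j : ℤ, b ^ 2 = t * a ^ j := by
        rcases memK _ hb2 with h | h
        · obtain ⟨j, hj⟩ := Subgroup.mem_zpowers_iff.1 h
          exact ⟨1, V.one_mem, j, by rw [one_mul, hj]⟩
        · obtain ⟨j, hj⟩ := Subgroup.mem_zpowers_iff.1 h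
          refine ⟨s, hsV, j, ?_⟩
          rw [hj, mul_comm s, mul_assoc, hss, mul_one]
      have ht2 : t ^ 2 = 1 := hV2 t ht
      have h1 : a ^ (j * (2 ^ (c'' + 1) : ℕ)) = 1 := by
        have h2 := ha b
        rw [hc, pow_succ' 2 (c'' + 1), pow_mul, hj, mul_pow] at h2
        have h3 : t ^ 2 ^ (c'' + 1) = 1 := by
          rw [pow_succ' 2 c'', pow_mul, ht2, one_pow]
        rw [h3, one_mul, ← zpow_natCast, ← zpow_mul] at h2
        exact h2
      have h2 : ((2 ^ (c'' + 1 + 1) : ℕ) : ℤ) ∣ j * (2 ^ (c'' + 1) : ℕ) := by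
        rw [← hc]; exact orderOf_dvd_iff_zpow_eq_one.2 h1
      have h3 : (2 : ℤ) ∣ j := by
        rw [pow_succ' 2 (c'' + 1)] at h2
        push_cast at h2
        have h0 : (2 ^ (c'' + 1) : ℤ) ≠ 0 := by positivity
        exact Int.dvd_of_mul_dvd_mul_right h0 h2
      obtain ⟨i, hi⟩ := h3
      have hp2 : (b * a ^ (-i)) ^ 2 = t := by
        rw [mul_pow, hj, hi, ← zpow_natCast (a ^ (-i)), ← zpow_mul, mul_assoc, ← zpow_add]
        have : 2 * i + -i * ((2 : ℕ) : ℤ) = 0 := by push_cast; ring
        rw [this, zpow_zero, mul_one]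
      have hpK : b * a ^ (-i) ∉ Subgroup.zpowers a ⊔ V := by
        intro h
        apply hb
        have : b = b * a ^ (-i) * a ^ i := by rw [mul_assoc, ← zpow_add]; simp
        rw [this]
        exact Subgroup.mul_mem _ h (haK (Subgroup.zpow_mem_zpowers a i))
      have hqa : a ^ (2 ^ c'') ∈ Subgroup.zpowers a := Subgroup.pow_mem _ (Subgroup.mem_zpowers a) _
      have hq2 : (a ^ (2 ^ c'')) ^ 2 = z := by
        rw [hz, ← pow_mul, ← pow_succ]
      refine hred V hV4 hV2 ⟨b * a ^ (-i), a ^ (2 ^ c''), ?_, ?_, ?_, ?_, ?_⟩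
      · rw [hp2]; exact ht
      · rw [hq2]; exact hzV
      · exact fun h => hpK (hVK h)
      · intro h
        have := hV2 _ h
        rw [hq2] at this
        exact hz1 this
      · intro h
        apply hpK
        have h4 : b * a ^ (-i) = (b * a ^ (-i) * (a ^ (2 ^ c''))⁻¹) * a ^ (2 ^ c'') := by
          rw [inv_mul_cancel_right]
        rw [h4]
        exact Subgroup.mul_mem _ (hVK h) (haK hqa)

end H81.AB
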