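import Pool.Agent.H81.AB.Nc
import Pool.Graph.R_seed8.Y410.PAR.EXT

/-!
# Part RNK: abelian 2-groups with at least 64 elements of order at most two; part ORD
-/

set_option autoImplicit false

namespace H81.AB

open Pool.Agent.Y382.PAR Pool.Agent.Y410.PAR
open scoped Pointwise

universe u

theorem t_RNK (hE16 : S_E16.{u}) (hPAI : S_PAI.{u}) : S_RNK.{u} := by
  intro G _ _ hG hcard
  set Ω : Subgroup G := (powMonoidHom 2 : G →* G).ker with hΩ
  have hmem : ∀ x : G, x ∈ Ω ↔ x ^ 2 = 1 := fun x => by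
    rw [hΩ, MonoidHom.mem_ker, powMonoidHom_apply]
  have hΩc : Nat.card Ω = Nat.card {x : G // x ^ 2 = 1} :=
    Nat.card_congr (Equiv.subtypeEquivRight hmem)
  rw [← hΩc] at hcard
  have hΩ2 : IsPGroup 2 Ω := hG.to_subgroup Ω
  obtain ⟨n, hn⟩ := IsPGroup.iff_card.1 hΩ2
  have hn6 : 6 ≤ n := by
    by_contra hcon
    have h3 : (2 : ℕ) ^ n ≤ 2 ^ 5 := Nat.pow_le_pow_right (by norm_num) (by omega)
    rw [hn] at hcard
    norm_num at h3
    omega
  have : Fact (Nat.Prime 2) := ⟨Nat.prime_two⟩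
  obtain ⟨N', hN'⟩ := Sylow.exists_subgroup_card_pow_prime (G := Ω) 2 (n := 4)
    (by rw [hn]; exact pow_dvd_pow 2 (by omega))
  set N : Subgroup G := N'.map Ω.subtype with hN
  have hNc : Nat.card N = 16 := by
    rw [hN, Nat.card_congr (N'.equivMapOfInjective Ω.subtype Ω.subtype_injective).symm.toEquiv, hN']
    norm_num
  have hNΩ : N ≤ Ω := Subgroup.map_subtype_le N'
  have hAN : AllPar N := hE16 N hNc fun x => by
    apply Subtype.ext
    rw [Subgroup.coe_pow]
    exact (hmem x).1 (hNΩ x.2)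
  -- two involutions of the quotient
  obtain ⟨p, hp, hpN⟩ : ∃ p ∈ Ω, p ∉ N := by
    by_contra hcon
    push Not at hcon
    have h1 : Nat.card Ω ≤ Nat.card N := Subgroup.card_le_of_le hcon
    omega
  have hp2 := (hmem p).1 hp
  have hW : Nat.card (N ⊔ Subgroup.zpowers p : Subgroup G) ≤ 16 * 2 := by
    have h1 : Nat.card (Subgroup.zpowers p) ≤ 2 := by
      rw [Nat.card_zpowers]
      exact Nat.le_of_dvd (by norm_num) (orderOf_dvd_of_pow_eq_one hp2)
    calc Nat.card (N ⊔ Subgroup.zpowers p : Subgroup G)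
        ≤ Nat.card N * Nat.card (Subgroup.zpowers p) := by
          have h2 : ((N ⊔ Subgroup.zpowers p : Subgroup G) : Set G) =
              (N : Set G) * (Subgroup.zpowers p : Set G) := Subgroup.mul_normal _ _
          have h3 := Set.natCard_mul_le (s := (N : Set G)) (t := (Subgroup.zpowers p : Set G))
          rw [← h2] at h3
          exact h3
      _ ≤ 16 * 2 := Nat.mul_le_mul hNc.le h1
  obtain ⟨q, hq, hqW⟩ : ∃ q ∈ Ω, q ∉ N ⊔ Subgroup.zpowers p := by
    by_contra hcon
    push Not at hcon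
    have h1 : Nat.card Ω ≤ Nat.card (N ⊔ Subgroup.zpowers p : Subgroup G) :=
      Subgroup.card_le_of_le hcon
    omega
  have hcyc : ¬ IsCyclic (G ⧸ N) := by
    refine not_cyclic_of_two (x := (p : G ⧸ N)) (y := (q : G ⧸ N)) ?_ ?_ ?_ ?_ ?_
    · rw [← QuotientGroup.mk_pow, hp2, QuotientGroup.mk_one]
    · rw [← QuotientGroup.mk_pow, (hmem q).1 hq, QuotientGroup.mk_one]
    · exact fun h => hpN ((QuotientGroup.eq_one_iff _).1 h)
    · exact fun h => hqW ((le_sup_left : N ≤ _) ((QuotientGroup.eq_one_iff _).1 h))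
    · intro h
      apply hqW
      have h4 : p⁻¹ * q ∈ N := QuotientGroup.eq.1 h
      have h5 : q = p * (p⁻¹ * q) := by rw [mul_inv_cancel_left]
      rw [h5]
      exact Subgroup.mul_mem _ ((le_sup_right : Subgroup.zpowers p ≤ _) (Subgroup.mem_zpowers p))
        ((le_sup_left : N ≤ _) h4)
  exact t_EXT G N (hPAI (G ⧸ N) (hG.to_quotient N) hcyc) hAN

/-- one step: `|H| ≤ |Ω| |H²|` -/
theorem card_step {G : Type u} [CommGroup G] [Finite G] (H : Subgroup G) :
    Nat.card H ≤ Nat.card {x : G // x ^ 2 = 1} *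
      Nat.card (H.map (powMonoidHom 2 : G →* G)) := by
  classical
  set φ : H →* G := (powMonoidHom 2 : G →* G).comp H.subtype with hφ
  have h1 := φ.ker.card_mul_index
  have h2 : φ.ker.index = Nat.card (H.map (powMonoidHom 2 : G →* G)) := by
    rw [Subgroup.index_ker, hφ]
    have : ((powMonoidHom 2 : G →* G).comp H.subtype).range = H.map (powMonoidHom 2 : G →* G) := by
      rw [MonoidHom.range_comp, Subgroup.range_subtype]
    rw [this]
  rw [h2] at h1
  rw [← h1]
  apply Nat.mul_le_mul_right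
  refine Nat.card_le_card_of_injective
    (fun x : φ.ker => (⟨(x : H), by
      have := x.2
      rw [MonoidHom.mem_ker] at this
      exact this⟩ : {x : G // x ^ 2 = 1})) ?_
  intro x y hxy
  have h3 := congrArg Subtype.val hxy
  exact Subtype.ext (Subtype.ext h3)

theorem t_ORD : S_ORD.{u} := by
  intro G _ _ hG hord hΩ
  set sq : G →* G := powMonoidHom 2 with hsq
  have h8 : ∀ x : G, x ^ 8 = 1 := by
    intro x
    obtain ⟨c, hc⟩ := orderOf_pow_two hG x
    have h1 := hord x
    rw [hc] at h1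
    have hc3 : c ≤ 3 := by
      by_contra hcon
      have h3 : (2 : ℕ) ^ 4 ≤ 2 ^ c := Nat.pow_le_pow_right (by norm_num) (by omega)
      norm_num at h3
      omega
    have h2 : orderOf x ∣ 8 := by
      rw [hc]
      exact (pow_dvd_pow 2 hc3).trans (by norm_num)
    exact orderOf_dvd_iff_pow_eq_one.1 h2
  set m := Nat.card {x : G // x ^ 2 = 1} with hm
  have s1 := card_step (⊤ : Subgroup G)
  have s2 := card_step ((⊤ : Subgroup G).map sq)
  have s3 := card_step (((⊤ : Subgroup G).map sq).map sq)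
  have s4 : Nat.card ((((⊤ : Subgroup G).map sq).map sq).map sq) = 1 := by
    have : (((⊤ : Subgroup G).map sq).map sq).map sq = ⊥ := by
      rw [Subgroup.eq_bot_iff_forall]
      rintro x hx
      obtain ⟨y, hy, rfl⟩ := hx
      obtain ⟨z, hz, rfl⟩ := hy
      obtain ⟨w, hw, rfl⟩ := hz
      rw [hsq]
      simp only [powMonoidHom_apply]
      rw [← pow_mul, ← pow_mul]
      exact h8 w
    rw [this, Subgroup.card_bot]
  rw [Subgroup.card_top] at s1
  rw [← hm] at s1 s2 s3
  rw [← hsq] at s1 s2 s3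
  rw [s4, mul_one] at s3
  calc Nat.card G ≤ m * Nat.card ((⊤ : Subgroup G).map sq) := s1
    _ ≤ m * (m * Nat.card (((⊤ : Subgroup G).map sq).map sq)) := Nat.mul_le_mul_left m s2
    _ ≤ m * (m * m) := Nat.mul_le_mul_left m (Nat.mul_le_mul_left m s3)
    _ ≤ 32 * (32 * 32) := Nat.mul_le_mul hΩ (Nat.mul_le_mul hΩ hΩ)
    _ = 32 ^ 3 := by norm_num

end H81.AB
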