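import Pool.Graph.R_seed8.Y382.PAR.Stm

/-!
# Crew AB (MP_281388_al): all four parity pairs for abelian groups

Library: `Pool.Agent.Y382.PAR.AllPar` (all four sign pairs of `f`, `F x = x * f x` occur), groups of
odd order (`Pool.Graph.R_seed8.Results.MP_281388_al.OddOrder`), and
`Pool.Agent.Y410.PAR.t_EXT : S_EXT` (`N` normal, `G ⧸ N` has a complete mapping, `AllPar N` imply
`AllPar G`), file `Pool/Graph/R_seed8/Y410/PAR/EXT.lean`.
Prove `theorem t_XXX (h1 : S_A.{u}) ... : S_XXX.{u}` with the hypotheses named in the docstring.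
-/

set_option autoImplicit false

namespace H81.AB

open Pool.Agent.Y382.PAR

universe u

/-- `G` has a complete mapping `f` (with orthomorphism `F`). -/
def CM (G : Type u) [Group G] : Prop := ∃ f F : Equiv.Perm G, ∀ x, F x = x * f x

/-- the group `Z/2 × Z/2h` -/
abbrev ZZ (h : ℕ) : Type := Multiplicative (ZMod 2 × ZMod (2 * h))

instance instFiniteZZ (h : ℕ) [NeZero h] : Finite (ZZ h) := by
  have : NeZero (2 * h) := ⟨by have := NeZero.ne h; omega⟩
  exact inferInstanceAs (Finite (ZMod 2 × ZMod (2 * h)))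

/-- FAM (helper81). -/
def S_FAM : Prop := ∀ (h : ℕ) [NeZero h], 4 ≤ h → AllPar (ZZ h)

/-- FAMC (helper81). -/
def S_FAMC : Prop := ∀ h : ℕ, 1 ≤ h → CM (ZZ h)

/-- ISO. (20 lines.) Transport along an isomorphism between groups in different universes; copy
`Pool/Graph/R_seed8/Y77/PAR/ISO.lean` (`sgn_congr` needs one universe: use `Equiv.Perm.sign_permCongr`
after `sgn_eq`). Both statements. -/
def S_ISO0 : Prop := ∀ (G : Type) (H : Type u) [Group G] [Group H] [Finite G] [Finite H],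
  (G ≃* H) → (AllPar G → AllPar H) ∧ (CM G → CM H)

/-- EXTC. (30 lines.) Take the functions `ff`, `ff_inj`, `mul_ff_inj` of
`Pool/Graph/R_seed8/Y410/PAR/EXT.lean` with `Φ i = φ` for all `i` (`φ` the complete mapping of `N`),
`x = Quotient.out`, `y i = x (η i)`. -/
def S_EXTC : Prop := ∀ (G : Type u) [Group G] [Finite G] (N : Subgroup G) [N.Normal],
  CM (G ⧸ N) → CM N → CM G

/-- DEC. (50 lines.) Recognition of `Z/2 × Z/2h`: `(ε, i) ↦ s ^ ε * a ^ i` is an injective
homomorphism, so bijective by cardinality. -/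
def S_DEC : Prop := ∀ (G : Type u) [CommGroup G] [Finite G] (s a : G) (h : ℕ), 1 ≤ h →
  s ^ 2 = 1 → orderOf a = 2 * h → s ∉ Subgroup.zpowers a → Nat.card G = 4 * h →
  Nonempty (ZZ h ≃* G)

/-- E16. (80 lines.) `G` is a vector space of dimension 4 over `ZMod 2` (`AddCommGroup.zmodModule` on
`Additive G`, `finrank = 4`), so isomorphic to `Multiplicative (Fin 4 → ZMod 2)` or to
`Multiplicative (ZMod 2 × ZMod 2 × ZMod 2 × ZMod 2)`; there one explicit complete mapping and two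
disjoint trades (`σ, τ`), `(σ', τ')` with `x * f (σ x) = F (τ x)` by `decide`, signs `(-1, -1)` and
`(1, -1)`; trade lemma `AllPar_of_trades` in `Pool/Agent/H81/AB/Trd.lean`. Data (elements `0..15` = bit vectors,
addition = xor): `f = [8,5,3,14,15,2,4,13,6,0,10,7,9,11,1,12]`, `F = [8,4,1,13,11,7,2,10,14,9,0,12,5,6,15,3]`,
`σ = (1 15 13 3)` (i.e. 1→15→13→3→1), `τ = (1 3 13 15)`, `σ' = (0 9)(2 10)`, `τ' = (0 10 9 2)`. -/
def S_E16 : Prop := ∀ (G : Type u) [CommGroup G] [Finite G], Nat.card G = 16 →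
  (∀ x : G, x ^ 2 = 1) → AllPar G

/-- E8. (50 lines.) Elementary abelian groups of order 8 have a complete mapping: on
`ZMod 2 × ZMod 2 × ZMod 2` the linear map `(a, b, c) ↦ (c, a + c, b)`, i.e. multiplication by a root of
`t³ + t + 1` (`f` and `x + f x` are bijective, `decide`). -/
def S_E8 : Prop := ∀ (G : Type u) [CommGroup G] [Finite G], Nat.card G = 8 →
  (∀ x : G, x ^ 2 = 1) → CM G

/-- PAI. (150 lines, from `S_FAMC`, `S_ISO0`, `S_EXTC`, `S_DEC`, `S_E8`.) Every noncyclic abelian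
2-group has a complete mapping. Strong induction on `Nat.card G`. Let `Ω = {x | x ^ 2 = 1}` (a subgroup,
`(powMonoidHom 2).ker`). As `G` is not cyclic, `|Ω| ≥ 4` (a finite group in which `x ^ n = 1` has at most `n`
solutions is cyclic, `isCyclic_of_card_pow_eq_one_le`; for a 2-group it is enough to treat... or: a finite
abelian 2-group with at most one involution is cyclic, use `IsPGroup.isCyclic...` if in Mathlib).
(1) If some subgroup `V ≤ Ω` of order 4 has noncyclic quotient: `CM V` (a group of exponent 2 and order 4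
is `ZZ 1` by `S_DEC` with `h = 1`), `CM (G ⧸ V)` by induction, `S_EXTC`.
(2) If `|Ω| ≥ 16` every `V` has noncyclic quotient (`Ω / V` has exponent 2 and order `≥ 4`).
(3) If `|Ω| = 8` and `G = Ω`: `S_E8`. If `|Ω| = 8` and `G ≠ Ω`: there is `x` of order 4; take
`V = {1, x², s, x² s}`, `s ∈ Ω`, `s ∉ {1, x²}`; for `u ∈ Ω \ V` the classes of `x` and `u` are two different
involutions of `G ⧸ V`, which is therefore not cyclic.
(4) If `|Ω| = 4` and `G ⧸ Ω` is cyclic, generated by the class of `a`: if `G = Ω` then `S_DEC` with `h = 1`;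
otherwise `zpowers a` contains exactly one involution `z`, let `s ∈ Ω`, `s ∉ {1, z}`; `orderOf a = 2 h`,
`Nat.card G = 4 h`, so `G ≃* ZZ h` by `S_DEC`. -/
def S_PAI : Prop := ∀ (G : Type u) [CommGroup G] [Finite G], IsPGroup 2 G → ¬ IsCyclic G → CM G

/-- NC. (60 lines.) A finite abelian 2-group is noncyclic iff it has two different involutions. -/
def S_NC : Prop := ∀ (G : Type u) [CommGroup G] [Finite G], IsPGroup 2 G →
  (¬ IsCyclic G ↔ ∃ x y : G, x ^ 2 = 1 ∧ y ^ 2 = 1 ∧ x ≠ 1 ∧ y ≠ 1 ∧ x ≠ y)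

/-- BIG. (120 lines, from `S_FAM`, `S_ISO0`, `S_DEC`, `S_PAI`, `S_NC` and `t_EXT` of the library.) Let `a` have
maximal order `2 ^ c ≥ 16`, `s` an involution not in `zpowers a` (`S_NC`), `N = ⟨s, a ^ (2 ^ (c - 3))⟩ ≃* ZZ 4`,
`x = a ^ (2 ^ (c - 4))`. (1) If there is `y` with `y ^ 2 ∈ N` and `y ∉ N`, `y * x⁻¹ ∉ N`: then the classes of
`x` and `y` are two different involutions of `G ⧸ N`, so `G ⧸ N` is noncyclic (`S_NC`), has a complete mapping
(`S_PAI`), and `t_EXT` applies. (2) Otherwise `G = ⟨s, a⟩ ≃* ZZ (2 ^ (c - 1))` (`S_DEC`), `S_FAM`: if not,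
there is `b ∉ ⟨s, a⟩` with `b ^ 2 ∈ ⟨s, a⟩`, `b ^ 2 = s ^ ε * a ^ j`; `j` is even, as otherwise
`orderOf b = 2 * orderOf a`; so `(b * a ^ (-j/2)) ^ 2 ∈ {1, s} ⊆ N`, contradiction. -/
def S_BIG : Prop := ∀ (G : Type u) [CommGroup G] [Finite G], IsPGroup 2 G → ¬ IsCyclic G →
  (∃ a : G, 16 ≤ orderOf a) → AllPar G

/-- RNK. (60 lines, from `S_E16`, `S_PAI`, `S_NC` and `t_EXT` of the library.) `Ω = {x | x ^ 2 = 1}` has a
subgroup `N` of order 16 (`Sylow.exists_subgroup_card_pow_prime`), `AllPar N` by `S_E16`; `Ω / N` has order `≥ 4`,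
so `G ⧸ N` has two different involutions. -/
def S_RNK : Prop := ∀ (G : Type u) [CommGroup G] [Finite G], IsPGroup 2 G →
  64 ≤ Nat.card {x : G // x ^ 2 = 1} → AllPar G

/-- ORD. (50 lines.) `x ↦ x ^ 2` has kernel `Ω`: `|G| = |Ω| |G²|`, and `|G²| = |Ω ∩ G²| |G⁴|`,
`|G⁴| ≤ |Ω|` as `G⁸ = 1`. -/
def S_ORD : Prop := ∀ (G : Type u) [CommGroup G] [Finite G], IsPGroup 2 G →
  (∀ a : G, orderOf a < 16) → Nat.card {x : G // x ^ 2 = 1} ≤ 32 → Nat.card G ≤ 32 ^ 3

/-- ABL. (120 lines, from `S_BIG`, `S_RNK`, `S_ORD`, `S_PAI`, the library theorem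
`Pool.Agent.Results.MP_281388_al.OddOrder.main` and `t_EXT`.) Let `P` be the Sylow 2-subgroup. If `P = ⊥` the
order is odd and `> 5`: library. Otherwise `P` is not cyclic. There is a complement `O` of `P`
(`Subgroup.exists_right_complement'_of_coprime`), of odd order, `G ⧸ O ≃* P` (`IsComplement'.QuotientMulEquiv`),
`G ⧸ P ≃* O`. If `Nat.card O > 5`: `AllPar O` (library), `CM (G ⧸ O)` (`S_PAI`), `t_EXT`. Otherwise
`Nat.card P > 32 ^ 3`, so `AllPar P` by `S_ORD`, `S_RNK` (if `Nat.card Ω ≥ 64`; it is a power of 2) and `S_BIG`;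
`G ⧸ P` has odd order, so `x ↦ x` is a complete mapping; `t_EXT`. -/
def S_ABL : Prop := ∀ (G : Type u) [CommGroup G] [Finite G], 5 * 32 ^ 3 < Nat.card G →
  (∀ P : Sylow 2 G, (P : Subgroup G) = ⊥ ∨ ¬ IsCyclic P) → AllPar G

end H81.AB
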