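import Pool.Agent.H81.AB.Stm

/-!
# The trade lemma
-/

set_option autoImplicit false

namespace H81.AB

open Pool.Agent.Y382.PAR

universe u

/-- Two disjoint trades of a complete mapping, of signs `(-1, -1)` and `(1, -1)`, give all four pairs. -/
theorem AllPar_of_trades (G : Type u) [Group G] [Finite G] (f F σ τ σ' τ' : Equiv.Perm G)
    (h0 : ∀ x, F x = x * f x) (h1 : ∀ x, F (τ x) = x * f (σ x))
    (h2 : ∀ x, F (τ' x) = x * f (σ' x)) (h3 : ∀ x, F (τ (τ' x)) = x * f (σ (σ' x)))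
    (s1 : sgn σ = -1) (s2 : sgn τ = -1) (s3 : sgn σ' = 1) (s4 : sgn τ' = -1) : AllPar G := by
  have hcase : ∀ u v : ℤˣ, u = v ∨ u = -v := by decide
  intro ε δ
  rcases hcase ε (sgn f) with e1 | e1 <;> rcases hcase δ (sgn F) with e2 | e2
  · exact ⟨f, F, h0, e1.symm, e2.symm⟩
  · refine ⟨f * σ', F * τ', h2, ?_, ?_⟩
    · rw [sgn_mul, s3, mul_one, e1]
    · rw [sgn_mul, s4, mul_neg, mul_one, e2]
  · refine ⟨f * (σ * σ'), F * (τ * τ'), h3, ?_, ?_⟩
    · rw [sgn_mul, sgn_mul, s1, s3, mul_one, mul_neg, mul_one, e1]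
    · rw [sgn_mul, sgn_mul, s2, s4, e2]
      simp
  · refine ⟨f * σ, F * τ, h1, ?_, ?_⟩
    · rw [sgn_mul, s1, mul_neg, mul_one, e1]
    · rw [sgn_mul, s2, mul_neg, mul_one, e2]

end H81.AB
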